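import Pool.Agent.Lib.MP_5ca319_gt.PeterWeyl

/-!
Closed subgroups of the circle and diagonalization of commuting unitary representations.
-/

set_option autoImplicit false
set_option linter.all false

open Filter Topology

namespace Pool.Agent.Lib.MP_5ca319_gt

theorem circle_closed_subgroup (S : Subgroup Circle) (hS : IsClosed (S : Set Circle))
    (hne : S ≠ ⊤) : ∃ m : ℕ, 0 < m ∧ ∀ z ∈ S, z ^ m = 1 := by
  let S' : AddSubgroup ℝ :=
    { carrier := {t | Circle.exp t ∈ S}
      zero_mem' := by simp [S.one_mem]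
      add_mem' := by
        intro a b ha hb
        simp only [Set.mem_setOf_eq, Circle.exp_add]
        exact S.mul_mem ha hb
      neg_mem' := by
        intro a ha
        simp only [Set.mem_setOf_eq, Circle.exp_neg]
        exact S.inv_mem ha }
  have hclosed : IsClosed (S' : Set ℝ) := hS.preimage Circle.exp.continuous
  rcases AddSubgroup.dense_or_cyclic S' with hd | ⟨a, ha⟩
  · exfalso
    apply hne
    rw [eq_top_iff]
    intro z _
    obtain ⟨t, rfl⟩ := Circle.exp_surjective z
    have : t ∈ (S' : Set ℝ) := by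
      rw [← hclosed.closure_eq, hd.closure_eq]
      trivial
    exact this
  · rw [← AddSubgroup.zmultiples_eq_closure] at ha
    have h2pi : (2 * Real.pi) ∈ S' := by
      show Circle.exp (2 * Real.pi) ∈ S
      rw [Circle.exp_two_pi]
      exact S.one_mem
    rw [ha, AddSubgroup.mem_zmultiples_iff] at h2pi
    obtain ⟨k, hk⟩ := h2pi
    have hk0 : k ≠ 0 := by
      rintro rfl
      rw [zero_smul] at hk
      have := Real.pi_pos
      linarith
    refine ⟨k.natAbs, Int.natAbs_pos.2 hk0, ?_⟩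
    intro z hz
    obtain ⟨t, rfl⟩ := Circle.exp_surjective z
    have ht : t ∈ S' := hz
    rw [ha, AddSubgroup.mem_zmultiples_iff] at ht
    obtain ⟨j, rfl⟩ := ht
    have h1 : (Circle.exp (j • a)) ^ k = 1 := by
      rw [← Circle.exp_zsmul, smul_comm, hk, Circle.exp_zsmul, Circle.exp_two_pi, one_zpow]
    rcases Int.natAbs_eq k with h | h
    · rw [h, zpow_natCast] at h1
      exact h1
    · rw [h, zpow_neg, zpow_natCast, inv_eq_one] at h1
      exact h1

section diag

variable {K : Type} [Group K] [TopologicalSpace K] (r : URep K) (D : Subgroup K)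

/-- common eigenvectors -/
def IsEig (v : r.E) : Prop := ∃ c : D → ℂ, ∀ d : D, r.ρ (d : K) v = c d • v

theorem exists_eig (hD : ∀ a ∈ D, ∀ b ∈ D, a * b = b * a) :
    ∀ n : ℕ, ∀ U : Submodule ℂ r.E, Module.finrank ℂ U = n → U ≠ ⊥ →
      (∀ d ∈ D, ∀ u ∈ U, r.ρ d u ∈ U) → ∃ u ∈ U, u ≠ 0 ∧ IsEig r D u := by
  intro n
  induction n using Nat.strong_induction_on with
  | _ n ih =>
    intro U hUn hU hinv
    by_cases hsc : ∀ d : D, ∃ c : ℂ, ∀ u ∈ U, r.ρ (d : K) u = c • u
    · choose c hc using hsc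
      obtain ⟨u, hu, hu0⟩ := (Submodule.ne_bot_iff U).1 hU
      exact ⟨u, hu, hu0, c, fun d => hc d u hu⟩
    · push Not at hsc
      obtain ⟨d, hd⟩ := hsc
      haveI : Nontrivial U := (Submodule.nontrivial_iff_ne_bot).2 hU
      let f : Module.End ℂ U := (r.ρ (d : K)).toLinearMap.restrict (hinv d d.2)
      obtain ⟨c, hc⟩ := Module.End.exists_eigenvalue f
      obtain ⟨w, hw⟩ := hc.exists_hasEigenvector
      have hwe : r.ρ (d : K) (w : r.E) = c • (w : r.E) := by
        have h1 := hw.apply_eq_smul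
        exact congrArg Subtype.val h1
      let U' : Submodule ℂ r.E := U ⊓ LinearMap.ker ((r.ρ (d : K)).toLinearMap - c • LinearMap.id)
      have hmemU' : ∀ u, u ∈ U' ↔ u ∈ U ∧ r.ρ (d : K) u = c • u := by
        intro u
        simp only [U', Submodule.mem_inf, LinearMap.mem_ker, LinearMap.sub_apply,
          LinearMap.smul_apply, LinearMap.id_apply, sub_eq_zero]
        rfl
      have hU'ne : U' ≠ ⊥ := by
        rw [Submodule.ne_bot_iff]
        refine ⟨w, (hmemU' _).2 ⟨w.2, hwe⟩, ?_⟩
        intro h0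
        exact hw.2 (Subtype.ext h0)
      have hU'lt : U' < U := by
        refine lt_of_le_of_ne inf_le_left ?_
        intro heq
        obtain ⟨u, hu, hune⟩ := hd c
        rw [← heq] at hu
        exact hune ((hmemU' u).1 hu).2
      have hlt := Submodule.finrank_lt_finrank_of_lt hU'lt
      obtain ⟨u, hu, hu0, he⟩ := ih _ (by rw [← hUn]; exact hlt) U' rfl hU'ne (by
        intro e he u hu
        rw [hmemU'] at hu ⊢
        refine ⟨hinv e he u hu.1, ?_⟩
        have h1 : r.ρ (d : K) (r.ρ e u) = r.ρ e (r.ρ (d : K) u) := by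
          have h2 : r.ρ ((d : K) * e) = r.ρ (e * d) := by rw [hD d d.2 e he]
          rw [map_mul, map_mul] at h2
          exact congrArg (fun F => F u) h2
        rw [h1, hu.2, map_smul])
      exact ⟨u, (hmemU' u).1 hu |>.1, hu0, he⟩

theorem span_eig (hD : ∀ a ∈ D, ∀ b ∈ D, a * b = b * a) :
    Submodule.span ℂ {v : r.E | IsEig r D v} = ⊤ := by
  set W := Submodule.span ℂ {v : r.E | IsEig r D v} with hW
  have hinv : ∀ d ∈ D, ∀ u ∈ W, r.ρ d u ∈ W := by
    intro d hd u hu
    induction hu using Submodule.span_induction with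
    | mem x hx =>
      obtain ⟨c, hc⟩ := hx
      rw [hc ⟨d, hd⟩]
      exact W.smul_mem _ (Submodule.subset_span ⟨c, hc⟩)
    | zero => simp
    | add x y _ _ hx hy => rw [map_add]; exact W.add_mem hx hy
    | smul a x _ hx => rw [map_smul]; exact W.smul_mem _ hx
  by_contra hne
  have hperp : Wᗮ ≠ ⊥ := by
    intro h
    exact hne ((Submodule.orthogonal_eq_bot_iff).1 h)
  have hinner : ∀ g : K, ∀ u v : r.E, inner ℂ (r.ρ g u) (r.ρ g v) = inner ℂ u v := by
    intro g u v
    let V : r.E →ₗᵢ[ℂ] r.E := ⟨(r.ρ g).toLinearMap, r.isom g⟩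
    exact V.inner_map_map u v
  have hinv' : ∀ d ∈ D, ∀ u ∈ Wᗮ, r.ρ d u ∈ Wᗮ := by
    intro d hd u hu
    rw [Submodule.mem_orthogonal] at hu ⊢
    intro w hw
    have h1 := hu (r.ρ d⁻¹ w) (hinv d⁻¹ (D.inv_mem hd) w hw)
    have h2 := hinner d (r.ρ d⁻¹ w) u
    have h3 : r.ρ d (r.ρ d⁻¹ w) = w := by
      have : (r.ρ d * r.ρ d⁻¹) w = w := by
        rw [← map_mul, mul_inv_cancel, map_one]; rfl
      exact this
    rw [h3, h1] at h2
    exact h2
  obtain ⟨u, hu, hu0, he⟩ := exists_eig r D hD _ Wᗮ rfl hperp hinv'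
  have h1 : u ∈ W := Submodule.subset_span he
  have h2 : inner ℂ u u = 0 := (Submodule.mem_orthogonal W u).1 hu u h1
  rw [inner_self_eq_zero] at h2
  exact hu0 h2

/-- the character of a common eigenvector -/
theorem exists_char (v : r.E) (hv : v ≠ 0) (hE : IsEig r D v) :
    ∃ χ : D →ₜ* Circle, ∀ d : D, r.ρ (d : K) v = (χ d : ℂ) • v := by
  obtain ⟨c, hc⟩ := hE
  have hnorm : ∀ d, ‖c d‖ = 1 := by
    intro d
    have h1 := r.isom (d : K) v
    rw [hc, norm_smul] at h1
    have h2 : ‖v‖ ≠ 0 := norm_ne_zero_iff.2 hv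
    exact mul_right_cancel₀ h2 (by rw [h1, one_mul])
  have hmul : ∀ a b, c (a * b) = c a * c b := by
    intro a b
    have h1 : r.ρ ((a * b : D) : K) v = r.ρ (a : K) (r.ρ (b : K) v) := by
      rw [Subgroup.coe_mul, map_mul]; rfl
    rw [hc, hc, map_smul, hc, smul_smul] at h1
    have h2 : c (a * b) = c b * c a := smul_left_injective ℂ hv h1
    rw [h2, mul_comm]
  have hone : c 1 = 1 := by
    have h1 : r.ρ ((1 : D) : K) v = v := by rw [Subgroup.coe_one, map_one]; rfl
    rw [hc] at h1
    exact smul_left_injective ℂ hv (by simpa using h1)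
  have hcont : Continuous c := by
    have h1 : ∀ d : D, c d = inner ℂ v (r.ρ (d : K) v) / inner ℂ v v := by
      intro d
      rw [hc, inner_smul_right, mul_div_assoc, div_self, mul_one]
      rwa [Ne, inner_self_eq_zero]
    have h2 : Continuous fun d : D => r.ρ (d : K) v :=
      (continuous_clm_apply.1 r.cont v).comp continuous_subtype_val
    have h3 : Continuous fun d : D => inner ℂ v (r.ρ (d : K) v) / inner ℂ v v :=
      (continuous_const.inner h2).div_const _
    rw [show c = fun d : D => inner ℂ v (r.ρ (d : K) v) / inner ℂ v v from funext h1]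
    exact h3
  refine ⟨{ toFun := fun d => ⟨c d, mem_sphere_zero_iff_norm.2 (hnorm d)⟩
            map_one' := Subtype.ext hone
            map_mul' := fun a b => Subtype.ext (hmul a b)
            continuous_toFun := hcont.subtype_mk _ }, fun d => hc d⟩

theorem exists_chars (hD : ∀ a ∈ D, ∀ b ∈ D, a * b = b * a) :
    ∃ (n : ℕ) (χ : Fin n → (D →ₜ* Circle)), ∀ d : D, r.ρ (d : K) = 1 ↔ ∀ i, χ i d = 1 := by
  classical
  have hfg : (Submodule.span ℂ {v : r.E | IsEig r D v}).FG := IsNoetherian.noetherian _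
  obtain ⟨t, ht, hspan⟩ := Submodule.fg_span_iff_fg_span_finset_subset _ |>.1 hfg
  rw [span_eig r D hD] at hspan
  have h1 : ∀ v : t, ∃ χ : D →ₜ* Circle, ∀ d : D, r.ρ (d : K) (v : r.E) = (χ d : ℂ) • (v : r.E) ∧
      (r.ρ (d : K) (v : r.E) = v → χ d = 1) := by
    intro v
    by_cases hv : (v : r.E) = 0
    · exact ⟨1, fun d => ⟨by simp [hv], fun _ => rfl⟩⟩
    · obtain ⟨χ, hχ⟩ := exists_char r D v hv (ht v.2)
      refine ⟨χ, fun d => ⟨hχ d, ?_⟩⟩
      intro h
      rw [hχ] at h
      have h2 : ((χ d : Circle) : ℂ) = 1 := smul_left_injective ℂ hv (by simpa using h)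
      exact Circle.ext h2
  choose χ hχ using h1
  refine ⟨t.card, fun i => χ (t.equivFin.symm i), fun d => ⟨?_, ?_⟩⟩
  · intro h i
    apply (hχ _ d).2
    rw [h]; rfl
  · intro h
    have h2 : ∀ v ∈ Submodule.span ℂ (t : Set r.E), r.ρ (d : K) v = v := by
      intro v hv
      induction hv using Submodule.span_induction with
      | mem x hx =>
        have h3 := (hχ ⟨x, hx⟩ d).1
        have h4 : χ ⟨x, hx⟩ d = 1 := by
          have := h (t.equivFin ⟨x, hx⟩)
          simpa using this
        rw [h4] at h3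
        simpa using h3
      | zero => simp
      | add x y _ _ hx hy => rw [map_add, hx, hy]
      | smul a x _ hx => rw [map_smul, hx]
    ext v
    have h3 : v ∈ Submodule.span ℂ (t : Set r.E) := by rw [← hspan]; trivial
    exact h2 v h3

end diag

end Pool.Agent.Lib.MP_5ca319_gt
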