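import Pool.Agent.Lib.MP_5ca319_gt.Basic

/-!
Under `SC` every residually finite closed normal subgroup of a compact group is finite.
-/

set_option autoImplicit false
set_option linter.all false

open Filter Topology

namespace Pool.Agent.Lib.MP_5ca319_gt

variable {K : Type*} [Group K] [TopologicalSpace K] [IsTopologicalGroup K] [CompactSpace K]
  [T2Space K]

theorem FI.trans {A B R : Subgroup K} (h1 : A ∈ FI B) (h2 : B ∈ FI R) : A ∈ FI R :=
  ⟨h1.1, h1.2.1.trans h2.2.1, Subgroup.relIndex_ne_zero_trans h1.2.2 h2.2.2⟩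

/-- avoid a finite set of nontrivial elements -/
theorem exists_FI_disjoint {N : Subgroup K} (hN : CN N) (hRF : RF N) (S : Set K) (hS : S.Finite) :
    ∃ U ∈ FI N, ∀ x ∈ S, x ≠ 1 → x ∉ U := by
  induction S, hS using Set.Finite.induction_on with
  | empty => exact ⟨N, self_mem_FI hN, by simp⟩
  | insert ha hs ih =>
    rename_i a s
    obtain ⟨U, hU, hU2⟩ := ih
    by_cases hcase : a ∈ N ∧ a ≠ 1
    · obtain ⟨V, hV, haV⟩ := hRF a hcase.1 hcase.2
      refine ⟨U ⊓ V, FI.inf hU hV, ?_⟩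
      rintro x (rfl | hx) hx1
      · exact fun h => haV h.2
      · exact fun h => hU2 x hx hx1 h.1
    · refine ⟨U, hU, ?_⟩
      rintro x (rfl | hx) hx1
      · intro h
        exact hcase ⟨hU.2.1 h, hx1⟩
      · exact hU2 x hx hx1

theorem Phi_finite {n : ℕ} {R : Subgroup K} (hR : CN R) (hRinf : (R : Set K).Infinite)
    (hBI : BI R n)
    (hmin : ∀ m < n, ∀ R' : Subgroup K, CN R' → R' ≤ R → (R' : Set K).Infinite → ¬ BI R' m) :
    ((R ⊓ sInf (MX R) : Subgroup K) : Set K).Finite := by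
  by_contra hinf
  have hinf : ((R ⊓ sInf (MX R) : Subgroup K) : Set K).Infinite := hinf
  set Φ := R ⊓ sInf (MX R) with hΦ
  have hΦCN : CN Φ := hR.inf (CN_sInf fun M hM => hM.1.1)
  -- n ≥ 2
  obtain ⟨x0, hx0, hx01⟩ : ∃ x ∈ R, x ≠ 1 := by
    obtain ⟨x, hx, hx1⟩ := hRinf.exists_notMem_finite (Set.finite_singleton (1 : K))
    exact ⟨x, hx, by simpa using hx1⟩
  have key : ∀ x ∈ R, x ≠ 1 → ∃ U ∈ FI R, ∃ M ∈ MX R, U ≤ M ∧ x ∉ U ∧
      U.relIndex M < n := by
    intro x hx hx1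
    obtain ⟨U, hU, hUn, hxU⟩ := hBI x hx hx1
    have hUR : U ≠ R := by rintro rfl; exact hxU hx
    obtain ⟨M, hM, hUM⟩ := exists_MX hU hUR
    refine ⟨U, hU, M, hM, hUM, hxU, ?_⟩
    have h1 := Subgroup.relIndex_mul_relIndex U M R hUM hM.1.2.1
    have h2 : M.relIndex R ≠ 1 := by
      rw [Ne, Subgroup.relIndex_eq_one]
      exact fun h' => hM.2.1 (le_antisymm hM.1.2.1 h')
    have h3 : M.relIndex R ≠ 0 := hM.1.2.2
    have h4 : U.relIndex M ≠ 0 := by
      intro h0; rw [h0, zero_mul] at h1; exact hU.2.2 h1.symm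
    have h5 : 2 ≤ M.relIndex R := by omega
    have h6 : U.relIndex M * 2 ≤ U.relIndex R := by
      rw [← h1]; exact Nat.mul_le_mul_left _ h5
    omega
  have hn : 1 < n := by
    obtain ⟨U, hU, M, hM, hUM, _, hlt⟩ := key x0 hx0 hx01
    have h4 : U.relIndex M ≠ 0 := by
      intro h0
      have h1 := Subgroup.relIndex_mul_relIndex U M R hUM hM.1.2.1
      rw [h0, zero_mul] at h1; exact hU.2.2 h1.symm
    omega
  apply hmin (n - 1) (by omega) Φ hΦCN inf_le_left hinf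
  intro x hx hx1
  obtain ⟨U, hU, M, hM, hUM, hxU, hlt⟩ := key x hx.1 hx1
  have hΦM : Φ ≤ M := inf_le_right.trans (sInf_le hM)
  have h4 : U.relIndex M ≠ 0 := by
    intro h0
    have h1 := Subgroup.relIndex_mul_relIndex U M R hUM hM.1.2.1
    rw [h0, zero_mul] at h1; exact hU.2.2 h1.symm
  have h5 : U.relIndex Φ ≤ U.relIndex M := Subgroup.relIndex_le_of_le_right hΦM h4
  have h6 : U.relIndex Φ ≠ 0 := fun h0 => h4 (by
    have := Subgroup.relIndex_eq_zero_of_le_right hΦM h0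
    exact this)
  refine ⟨U ⊓ Φ, ⟨hU.1.inf hΦCN, inf_le_right, ?_⟩, ?_, fun h => hxU h.1⟩
  · rw [Subgroup.inf_relIndex_right]; exact h6
  · rw [Subgroup.inf_relIndex_right]; omega

/-- Existence of minimal closed normal supplements. -/
theorem exists_min_supplement {B D : Subgroup K} (hB : CN B) (hD : CN D) (hDB : D ≤ B) :
    ∃ C, CN C ∧ C ≤ B ∧ B ≤ C ⊔ D ∧ ∀ C', CN C' → C' ≤ C → B ≤ C' ⊔ D → C' = C := by
  set S : Set (Subgroup K) := {C | CN C ∧ C ≤ B ∧ B ≤ C ⊔ D} with hS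
  have hBS : B ∈ S := ⟨hB, le_rfl, le_sup_left⟩
  have hz : ∀ c ⊆ S, IsChain (· ≤ ·) c → c.Nonempty → ∃ lb ∈ S, ∀ s ∈ c, lb ≤ s := by
    intro c hcS hc hcne
    refine ⟨sInf c, ⟨CN_sInf fun U hU => (hcS hU).1, ?_, ?_⟩, fun s hs => sInf_le hs⟩
    · obtain ⟨C, hC⟩ := hcne
      exact (sInf_le hC).trans (hcS hC).2.1
    · intro b hb
      -- the sets {c ∈ C : c⁻¹ b ∈ D}
      set F : c → Set K := fun C => {x | x ∈ (C : Subgroup K) ∧ x⁻¹ * b ∈ D} with hF
      have hne' : Nonempty c := hcne.to_subtype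
      have hFclosed : ∀ C, IsClosed (F C) := by
        intro C
        have h1 := (hcS C.2).1.closed
        have h2 : IsClosed {x : K | x⁻¹ * b ∈ D} :=
          hD.closed.preimage (by fun_prop : Continuous fun x : K => x⁻¹ * b)
        exact h1.inter h2
      have hFne : ∀ C, (F C).Nonempty := by
        intro C
        have hC := hcS C.2
        have hb' := hC.2.2 hb
        have hnorm := hD.normal
        rw [Subgroup.mem_sup_of_normal_right] at hb'
        obtain ⟨y, hy, z, hz, rfl⟩ := hb'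
        exact ⟨y, hy, by simpa using hz⟩
      have hdir : Directed (· ⊇ ·) F := by
        intro C1 C2
        rcases hc.total C1.2 C2.2 with h | h
        · exact ⟨C1, subset_rfl, fun x hx => ⟨h hx.1, hx.2⟩⟩
        · exact ⟨C2, fun x hx => ⟨h hx.1, hx.2⟩, subset_rfl⟩
      obtain ⟨x, hx⟩ := IsCompact.nonempty_iInter_of_directed_nonempty_isCompact_isClosed F hdir
        hFne (fun C => (hFclosed C).isCompact) hFclosed
      rw [Set.mem_iInter] at hx
      have hx1 : x ∈ sInf c := by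
        rw [Subgroup.mem_sInf]
        intro C hC
        exact (hx ⟨C, hC⟩).1
      obtain ⟨C, hC⟩ := hcne
      have hx2 := (hx ⟨C, hC⟩).2
      have : b = x * (x⁻¹ * b) := by group
      rw [this]
      exact Subgroup.mul_mem_sup hx1 hx2
  obtain ⟨C, hCB, hCmax⟩ := zorn_le_nonempty₀ (α := (Subgroup K)ᵒᵈ) (OrderDual.ofDual ⁻¹' S)
    (by
      intro c hcS hc y hy
      obtain ⟨lb, hlb, hlb2⟩ := hz (OrderDual.toDual ⁻¹' c) (fun z hz => hcS hz)
        (fun a ha b hb hab => (hc ha hb hab).symm) ⟨OrderDual.ofDual y, hy⟩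
      exact ⟨OrderDual.toDual lb, hlb, fun z hz => hlb2 (OrderDual.ofDual z) hz⟩)
    (OrderDual.toDual B) hBS
  have hCS : OrderDual.ofDual C ∈ S := hCmax.1
  refine ⟨OrderDual.ofDual C, hCS.1, hCS.2.1, hCS.2.2, ?_⟩
  intro C' hC' hle hsup
  have h1 : C' ∈ S := ⟨hC', hle.trans hCS.2.1, hsup⟩
  have h2 := hCmax.2 (y := OrderDual.toDual C') h1 hle
  exact le_antisymm hle h2

theorem finite_of_RF (hSC : SC K) {H : Subgroup K} (hH : CN H) (hRF : RF H) :
    (H : Set K).Finite := by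
  classical
  by_contra hinf
  have hinf : (H : Set K).Infinite := hinf
  -- minimal n
  have hex : ∃ n, ∃ R : Subgroup K, CN R ∧ R ≤ H ∧ (R : Set K).Infinite ∧ BI R n := by
    obtain ⟨n, hn⟩ := exists_BI hSC hH hRF
    exact ⟨n, H, hH, le_rfl, hinf, hn⟩
  obtain ⟨R, hR, hRH, hRinf, hBI⟩ := Nat.find_spec hex
  have hmin : ∀ m < Nat.find hex, ∀ R' : Subgroup K, CN R' → R' ≤ R →
      (R' : Set K).Infinite → ¬ BI R' m := by
    intro m hm R' h1 h2 h3 h4
    exact Nat.find_min hex hm ⟨R', h1, h2.trans hRH, h3, h4⟩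
  have hΦ := Phi_finite hR hRinf hBI hmin
  have hRFR : RF R := RF.mono hR hH hRH hRF
  obtain ⟨B, hB, hBΦ⟩ := exists_FI_disjoint hR hRFR _ hΦ
  have hBinf : (B : Set K).Infinite := infinite_of_relIndex hB.2.1 hRinf hB.2.2
  have hsep : ∀ b ∈ B, b ≠ 1 → ∃ M ∈ MX R, b ∉ M := by
    intro b hb hb1
    by_contra hcon
    push Not at hcon
    exact hBΦ b (Subgroup.mem_inf.2 ⟨hB.2.1 hb, Subgroup.mem_sInf.2 hcon⟩) hb1 hb
  -- the sequence
  have hstep : ∀ D : {D : Subgroup K // D ∈ FI R ∧ D ≤ B}, ∃ M ∈ MX R, ¬ D.1 ≤ M := by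
    rintro ⟨D, hD, hDB⟩
    have hDinf : (D : Set K).Infinite := infinite_of_relIndex hD.2.1 hRinf hD.2.2
    obtain ⟨x, hx, hx1⟩ := hDinf.exists_notMem_finite (Set.finite_singleton (1 : K))
    obtain ⟨M, hM, hxM⟩ := hsep x (hDB hx) (by simpa using hx1)
    exact ⟨M, hM, fun h => hxM (h hx)⟩
  choose M hM hDM using hstep
  let next : {D : Subgroup K // D ∈ FI R ∧ D ≤ B} → {D : Subgroup K // D ∈ FI R ∧ D ≤ B} :=
    fun D => ⟨D.1 ⊓ M D, FI.inf D.2.1 (hM D).1, inf_le_left.trans D.2.2⟩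
  let D : ℕ → {D : Subgroup K // D ∈ FI R ∧ D ≤ B} := fun n => next^[n] ⟨B, hB, le_rfl⟩
  have hDsucc : ∀ n, D (n + 1) = next (D n) := by
    intro n
    simp only [D, Function.iterate_succ_apply']
  have hanti : Antitone fun n => (D n).1 := by
    apply antitone_nat_of_succ_le
    intro n
    show (D (n+1)).1 ≤ (D n).1
    rw [hDsucc]
    exact inf_le_left
  set Dw : Subgroup K := ⨅ n, (D n).1 with hDw
  have hDwCN : CN Dw := CN_iInf fun n => (D n).2.1.1
  have hDwB : Dw ≤ B := (iInf_le _ 0).trans (D 0).2.2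
  obtain ⟨C, hC, hCB, hCD, hCmin⟩ := exists_min_supplement hB.1 hDwCN hDwB
  have hCn := hC.normal
  have hDwn := hDwCN.normal
  have hdisj : C ⊓ Dw = ⊥ := by
    rw [eq_bot_iff]
    intro x hx
    by_contra hx1
    have hx1 : x ≠ 1 := by simpa using hx1
    obtain ⟨N, hN, hxN⟩ := hsep x (hCB hx.1) hx1
    have hE : CN (C ⊓ Dw) := hC.inf hDwCN
    have hER : C ⊓ Dw ≤ R := (inf_le_left.trans hCB).trans hB.2.1
    rcases hN.2.2 (C ⊓ Dw) hE hER with h | h
    · exact hxN (h hx)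
    · have hC' : C ⊓ N = C := by
        apply hCmin _ (hC.inf hN.1.1) inf_le_left
        have h1 : C ≤ (C ⊓ N) ⊔ (C ⊓ Dw) := by
          have h2 : C ≤ C ⊓ (N ⊔ (C ⊓ Dw)) := le_inf le_rfl ((hCB.trans hB.2.1).trans h)
          exact h2.trans (modular_law hN.1.1.normal inf_le_left)
        calc B ≤ C ⊔ Dw := hCD
          _ ≤ ((C ⊓ N) ⊔ (C ⊓ Dw)) ⊔ Dw := sup_le_sup_right h1 _
          _ ≤ (C ⊓ N) ⊔ Dw := by
            apply sup_le (sup_le le_sup_left (inf_le_right.trans le_sup_right)) le_sup_right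
      have : x ∈ C ⊓ N := by rw [hC']; exact hx.1
      exact hxN this.2
  apply hSC (fun n => C ⊓ (D n).1) (fun n => hC.inf (D n).2.1.1)
  · intro m n hmn
    exact inf_le_inf_left _ (hanti hmn)
  · intro n hbot
    have h1 : (D n).1 ≤ Dw := by
      have h2 : (D n).1 ≤ (D n).1 ⊓ (C ⊔ Dw) := le_inf le_rfl ((D n).2.2.trans hCD)
      have h3 := h2.trans (modular_law hCn (iInf_le _ n))
      rw [inf_comm, hbot, bot_sup_eq] at h3
      exact h3
    apply hDM (D n)
    have h2 : Dw ≤ (D (n+1)).1 := iInf_le _ (n+1)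
    rw [hDsucc] at h2
    exact h1.trans (h2.trans inf_le_right)
  · rw [eq_bot_iff, ← hdisj]
    intro x hx
    rw [Subgroup.mem_iInf] at hx
    exact Subgroup.mem_inf.2 ⟨(hx 0).1, Subgroup.mem_iInf.2 fun n => (hx n).2⟩

end Pool.Agent.Lib.MP_5ca319_gt
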