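import Pool.Agent.Lib.MP_5ca319_gt.Iwasawa
import Pool.Agent.Lib.MP_5ca319_gt.Profinite
import Pool.Agent.Lib.MP_5ca319_gt.Circle

/-!
Under `SC`, a closed normal abelian subgroup of a compact group meets the kernel of some unitary
representation trivially.
-/

set_option autoImplicit false
set_option linter.all false

open Filter Topology

namespace Pool.Agent.Lib.MP_5ca319_gt

variable {K : Type} [Group K] [TopologicalSpace K] [IsTopologicalGroup K] [CompactSpace K]
  [T2Space K]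

def Ab (D : Subgroup K) : Prop := ∀ a ∈ D, ∀ b ∈ D, a * b = b * a

/-- bounded exponent in every representation -/
def BE (B : Subgroup K) : Prop := ∀ r : URep K, ∃ m : ℕ, 0 < m ∧ ∀ b ∈ B, r.ρ (b ^ m) = 1

theorem finite_circle_exponent (m : ℕ) (hm : 0 < m) : {z : Circle | z ^ m = 1}.Finite := by
  have h1 : {z : ℂ | z ^ m = 1}.Finite := by
    have : {z : ℂ | z ^ m = 1} ⊆ ((Polynomial.nthRoots m (1 : ℂ)).toFinset : Set ℂ) := by
      intro z hz
      simp only [Finset.mem_coe, Multiset.mem_toFinset]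
      exact (Polynomial.mem_nthRoots hm).2 hz
    exact (Finset.finite_toSet _).subset this
  refine Set.Finite.of_finite_image (f := fun z : Circle => (z : ℂ)) ?_
    (Circle.coe_injective.injOn)
  refine h1.subset ?_
  rintro _ ⟨z, hz, rfl⟩
  have : ((z ^ m : Circle) : ℂ) = 1 := by
    rw [show z ^ m = 1 from hz]; rfl
  simpa using this

theorem RF_of_BE {D : Subgroup K} (hD : CN D) (hab : Ab D) (hbe : BE D) : RF D := by
  intro x hx hx1
  obtain ⟨r, hr⟩ := exists_rep x hx1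
  obtain ⟨m, hm, hm2⟩ := hbe r
  obtain ⟨n, χ, hχ⟩ := exists_chars r D hab
  refine ⟨r.ρ.ker ⊓ D, ⟨(RK.CN ⟨r, rfl⟩).inf hD, inf_le_right, ?_⟩, ?_⟩
  · rw [Subgroup.inf_relIndex_right]
    show (r.ρ.ker.subgroupOf D).index ≠ 0
    let f : D →* (Fin n → Circle) :=
      { toFun := fun d i => χ i d
        map_one' := by ext i; simp
        map_mul' := by intro a b; ext i; simp }
    have hker : r.ρ.ker.subgroupOf D = f.ker := by
      ext d
      rw [Subgroup.mem_subgroupOf, MonoidHom.mem_ker, MonoidHom.mem_ker, hχ]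
      exact funext_iff.symm
    rw [hker, Subgroup.index_ker]
    have hfin : (Set.range f).Finite := by
      have h1 : (Set.pi Set.univ fun _ : Fin n => {z : Circle | z ^ m = 1}).Finite :=
        Set.Finite.pi fun _ => finite_circle_exponent m hm
      refine h1.subset ?_
      rintro _ ⟨d, rfl⟩ i _
      show (χ i d) ^ m = 1
      rw [← map_pow]
      exact (hχ (d ^ m)).1 (by rw [Subgroup.coe_pow]; exact hm2 d d.2) i
    have : Finite f.range := hfin
    exact Nat.card_pos.ne'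
  · intro h
    exact hr (MonoidHom.mem_ker.1 h.1)

theorem finite_of_BE (hSC : SC K) {D : Subgroup K} (hD : CN D) (hab : Ab D) (hbe : BE D) :
    (D : Set K).Finite := finite_of_RF hSC hD (RF_of_BE hD hab hbe)

/-- torsion-free -/
def TF (D : Subgroup K) : Prop := ∀ x ∈ D, ∀ m : ℕ, 0 < m → x ^ m = 1 → x = 1

theorem eq_bot_of_finite_TF {D : Subgroup K} (hfin : (D : Set K).Finite) (htf : TF D) : D = ⊥ := by
  rw [eq_bot_iff]
  intro x hx
  have : Finite D := hfin
  have h1 : (⟨x, hx⟩ : D) ^ Nat.card D = 1 := pow_card_eq_one'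
  have h2 : x ^ Nat.card D = 1 := by
    exact congrArg (fun z : D => (z : K)) h1
  rw [Subgroup.mem_bot]
  exact htf x hx _ Nat.card_pos h2

theorem eq_bot_of_BE (hSC : SC K) {D : Subgroup K} (hD : CN D) (hab : Ab D) (htf : TF D)
    {B : Subgroup K} (hBD : B ≤ D) (hbe : BE B) : B = ⊥ := by
  choose m hm0 hm using hbe
  let B' : Subgroup K :=
    { carrier := {d | d ∈ D ∧ ∀ r : URep K, r.ρ (d ^ m r) = 1}
      one_mem' := ⟨D.one_mem, fun r => by simp⟩
      mul_mem' := by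
        rintro a b ⟨ha, ha2⟩ ⟨hb, hb2⟩
        refine ⟨D.mul_mem ha hb, fun r => ?_⟩
        have hc : Commute a b := hab a ha b hb
        rw [hc.mul_pow, map_mul, ha2, hb2, one_mul]
      inv_mem' := by
        rintro a ⟨ha, ha2⟩
        refine ⟨D.inv_mem ha, fun r => ?_⟩
        have h1 : r.ρ (a⁻¹ ^ m r) * r.ρ (a ^ m r) = 1 := by
          rw [← map_mul, inv_pow, inv_mul_cancel, map_one]
        rwa [ha2, mul_one] at h1 }
  have hmem : ∀ d, d ∈ B' ↔ d ∈ D ∧ ∀ r : URep K, r.ρ (d ^ m r) = 1 := fun d => Iff.rfl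
  have hB'D : B' ≤ D := fun d hd => hd.1
  have hBB' : B ≤ B' := fun b hb => ⟨hBD hb, fun r => hm r b hb⟩
  have hCN : CN B' := by
    refine ⟨⟨?_⟩, ?_⟩
    · rintro x ⟨hx, hx2⟩ g
      refine ⟨hD.normal.conj_mem x hx g, fun r => ?_⟩
      rw [conj_pow, map_mul, map_mul, hx2, mul_one, ← map_mul, mul_inv_cancel, map_one]
    · have : (B' : Set K) = (D : Set K) ∩ ⋂ r : URep K, {d | r.ρ (d ^ m r) = 1} := by
        ext d
        simp [hmem]
      rw [this]
      refine hD.closed.inter (isClosed_iInter fun r => ?_)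
      exact isClosed_eq (r.cont.comp (continuous_pow _)) continuous_const
  have hbe' : BE B' := fun r => ⟨m r, hm0 r, fun b hb => hb.2 r⟩
  have hab' : Ab B' := fun a ha b hb => hab a (hB'D ha) b (hB'D hb)
  have hfin := finite_of_BE hSC hCN hab' hbe'
  have htf' : TF B' := fun x hx => htf x (hB'D hx)
  have hbot := eq_bot_of_finite_TF hfin htf'
  rw [eq_bot_iff, ← hbot]
  exact hBB'

section chars

variable {T : Type} [Group T] [TopologicalSpace T] [IsTopologicalGroup T] [CompactSpace T]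
  [T2Space T]

theorem exists_min_surj (χ : T →ₜ* Circle) (hχ : ∀ z, ∃ x, χ x = z) :
    ∃ H : Subgroup T, IsClosed (H : Set T) ∧ (∀ z, ∃ x ∈ H, χ x = z) ∧
      ∀ H' : Subgroup T, IsClosed (H' : Set T) → H' ≤ H → (∀ z, ∃ x ∈ H', χ x = z) → H' = H := by
  set S : Set (Subgroup T) := {H | IsClosed (H : Set T) ∧ ∀ z, ∃ x ∈ H, χ x = z} with hS
  have htop : (⊤ : Subgroup T) ∈ S := ⟨by simp, fun z => by
    obtain ⟨x, hx⟩ := hχ z
    exact ⟨x, trivial, hx⟩⟩
  have hz : ∀ c ⊆ S, IsChain (· ≤ ·) c → c.Nonempty → ∃ lb ∈ S, ∀ s ∈ c, lb ≤ s := by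
    intro c hcS hc hcne
    refine ⟨sInf c, ⟨?_, ?_⟩, fun s hs => sInf_le hs⟩
    · have : ((sInf c : Subgroup T) : Set T) = ⋂ U ∈ c, (U : Set T) := by simp [Subgroup.coe_sInf]
      rw [this]
      exact isClosed_biInter fun U hU => (hcS hU).1
    · intro z
      set F : c → Set T := fun C => {x | x ∈ (C : Subgroup T) ∧ χ x = z} with hF
      have hne' : Nonempty c := hcne.to_subtype
      have hFclosed : ∀ C, IsClosed (F C) := by
        intro C
        exact (hcS C.2).1.inter (isClosed_singleton.preimage χ.continuous_toFun : IsClosed (χ ⁻¹' {z}))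
      have hFne : ∀ C, (F C).Nonempty := by
        intro C
        obtain ⟨x, hx, hxz⟩ := (hcS C.2).2 z
        exact ⟨x, hx, hxz⟩
      have hdir : Directed (· ⊇ ·) F := by
        intro C1 C2
        rcases hc.total C1.2 C2.2 with h | h
        · exact ⟨C1, subset_rfl, fun x hx => ⟨h hx.1, hx.2⟩⟩
        · exact ⟨C2, fun x hx => ⟨h hx.1, hx.2⟩, subset_rfl⟩
      obtain ⟨x, hx⟩ := IsCompact.nonempty_iInter_of_directed_nonempty_isCompact_isClosed F hdir
        hFne (fun C => (hFclosed C).isCompact) hFclosed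
      rw [Set.mem_iInter] at hx
      refine ⟨x, ?_, (hx (Classical.arbitrary _)).2⟩
      rw [Subgroup.mem_sInf]
      exact fun C hC => (hx ⟨C, hC⟩).1
  obtain ⟨C, hCB, hCmax⟩ := zorn_le_nonempty₀ (α := (Subgroup T)ᵒᵈ) (OrderDual.ofDual ⁻¹' S)
    (by
      intro c hcS hc y hy
      obtain ⟨lb, hlb, hlb2⟩ := hz (OrderDual.toDual ⁻¹' c) (fun z hz => hcS hz)
        (fun a ha b hb hab => (hc ha hb hab).symm) ⟨OrderDual.ofDual y, hy⟩
      exact ⟨OrderDual.toDual lb, hlb, fun z hz => hlb2 (OrderDual.ofDual z) hz⟩)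
    (OrderDual.toDual ⊤) htop
  have hCS : OrderDual.ofDual C ∈ S := hCmax.1
  refine ⟨OrderDual.ofDual C, hCS.1, hCS.2, ?_⟩
  intro C' hC' hle hsurj
  have h2 := hCmax.2 (y := OrderDual.toDual C') (show C' ∈ S from ⟨hC', hsurj⟩) hle
  exact le_antisymm hle h2

theorem exponent_or_surj (ψ : T →ₜ* Circle) (P : Subgroup T) (hP : IsClosed (P : Set T)) :
    (∃ m : ℕ, 0 < m ∧ ∀ p ∈ P, ψ p ^ m = 1) ∨ ∀ z, ∃ p ∈ P, ψ p = z := by
  let S : Subgroup Circle := P.map ψ.toMonoidHom
  have hSc : IsClosed (S : Set Circle) := by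
    have : (S : Set Circle) = ψ '' (P : Set T) := rfl
    rw [this]
    exact (hP.isCompact.image ψ.continuous_toFun).isClosed
  by_cases hS : S = ⊤
  · right
    intro z
    have hz : z ∈ S := by rw [hS]; trivial
    obtain ⟨p, hp, hpz⟩ := hz
    exact ⟨p, hp, hpz⟩
  · left
    obtain ⟨m, hm, h⟩ := circle_closed_subgroup S hSc hS
    exact ⟨m, hm, fun p hp => h _ ⟨p, hp, rfl⟩⟩

theorem exponent_on_P (χ : T →ₜ* Circle) (H : Subgroup T) (hH : IsClosed (H : Set T))
    (hsurj : ∀ z, ∃ x ∈ H, χ x = z)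
    (hmin : ∀ H' : Subgroup T, IsClosed (H' : Set T) → H' ≤ H → (∀ z, ∃ x ∈ H', χ x = z) → H' = H)
    (ψ : T →ₜ* Circle) :
    ∃ m : ℕ, 0 < m ∧ ∀ p ∈ H ⊓ χ.toMonoidHom.ker, ψ p ^ m = 1 := by
  have hkc : ∀ φ : T →ₜ* Circle, IsClosed ((φ.toMonoidHom.ker : Subgroup T) : Set T) := by
    intro φ
    have : ((φ.toMonoidHom.ker : Subgroup T) : Set T) = φ ⁻¹' {1} := by
      ext x; simp [MonoidHom.mem_ker]
    rw [this]
    exact isClosed_singleton.preimage φ.continuous_toFun
  have hPc : IsClosed ((H ⊓ χ.toMonoidHom.ker : Subgroup T) : Set T) := hH.inter (hkc χ)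
  rcases exponent_or_surj ψ _ hPc with h | h
  · exact h
  · exfalso
    have hH1 : H ⊓ ψ.toMonoidHom.ker = H := by
      apply hmin _ (hH.inter (hkc ψ)) inf_le_left
      intro z
      obtain ⟨x, hx, hxz⟩ := hsurj z
      obtain ⟨p, hp, hpz⟩ := h (ψ x)
      have hpχ : χ p = 1 := MonoidHom.mem_ker.1 hp.2
      refine ⟨x * p⁻¹, ⟨H.mul_mem hx (H.inv_mem hp.1), ?_⟩, ?_⟩
      · show x * p⁻¹ ∈ ψ.toMonoidHom.ker
        rw [MonoidHom.mem_ker]
        show ψ (x * p⁻¹) = 1
        rw [map_mul, map_inv, hpz, mul_inv_cancel]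
      · rw [map_mul, map_inv, hpχ, inv_one, mul_one, hxz]
    obtain ⟨p, hp, hpz⟩ := h (Circle.exp Real.pi)
    have h1 : p ∈ H ⊓ ψ.toMonoidHom.ker := by rw [hH1]; exact hp.1
    have h2 : ψ p = 1 := MonoidHom.mem_ker.1 h1.2
    rw [h2] at hpz
    exact Circle.exp_pi_ne_one hpz.symm

end chars

theorem eq_bot_of_TF (hSC : SC K) {D : Subgroup K} (hD : CN D) (hab : Ab D) (htf : TF D) :
    D = ⊥ := by
  haveI : CompactSpace D := isCompact_iff_compactSpace.1 hD.closed.isCompact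
  -- characters control representations
  have key : ∀ P : Subgroup D, (∀ ψ : D →ₜ* Circle, ∃ m : ℕ, 0 < m ∧ ∀ p ∈ P, ψ p ^ m = 1) →
      P.map D.subtype = ⊥ := by
    intro P hP
    apply eq_bot_of_BE hSC hD hab htf
    · rintro _ ⟨p, _, rfl⟩
      exact p.2
    · intro r
      obtain ⟨n, χ, hχ⟩ := exists_chars r D hab
      choose m hm0 hm using fun i => hP (χ i)
      refine ⟨∏ i, m i, Finset.prod_pos fun i _ => hm0 i, ?_⟩
      rintro _ ⟨p, hp, rfl⟩
      have h1 := (hχ (p ^ ∏ i, m i)).2 (by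
        intro i
        rw [map_pow, ← Finset.mul_prod_erase Finset.univ m (Finset.mem_univ i), pow_mul, hm i p hp,
          one_pow])
      simpa using h1
  by_cases hsurj : ∃ χ : D →ₜ* Circle, ∀ z, ∃ x, χ x = z
  · exfalso
    obtain ⟨χ, hχ⟩ := hsurj
    obtain ⟨H, hHc, hHs, hHmin⟩ := exists_min_surj χ hχ
    have hbot := key (H ⊓ χ.toMonoidHom.ker) (exponent_on_P χ H hHc hHs hHmin)
    obtain ⟨x, hx, hxz⟩ := hHs (Circle.exp Real.pi)
    have h1 : x * x ∈ H ⊓ χ.toMonoidHom.ker := by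
      refine ⟨H.mul_mem hx hx, ?_⟩
      show x * x ∈ χ.toMonoidHom.ker
      rw [MonoidHom.mem_ker]
      show χ (x * x) = 1
      rw [map_mul, hxz, ← Circle.exp_add, ← two_mul, Circle.exp_two_pi]
    have h2 : ((x * x : D) : K) ∈ (H ⊓ χ.toMonoidHom.ker).map D.subtype := ⟨x * x, h1, rfl⟩
    rw [hbot, Subgroup.mem_bot] at h2
    have h3 : (x : K) = 1 := htf x x.2 2 two_pos (by rw [pow_two]; exact h2)
    have h4 : x = 1 := Subtype.ext h3
    rw [h4, map_one] at hxz
    exact Circle.exp_pi_ne_one hxz.symm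
  · push Not at hsurj
    have h1 := key ⊤ (by
      intro ψ
      rcases exponent_or_surj ψ ⊤ (by simp) with h | h
      · exact h
      · exfalso
        obtain ⟨z, hz⟩ := hsurj ψ
        obtain ⟨p, _, hp⟩ := h z
        exact hz p hp)
    rw [eq_bot_iff]
    intro x hx
    rw [← h1]
    exact ⟨⟨x, hx⟩, trivial, rfl⟩

/-- a finite set of nontrivial elements is avoided by some kernel -/
theorem exists_RK_disjoint (S : Set K) (hS : S.Finite) :
    ∃ N : Subgroup K, RK N ∧ ∀ x ∈ S, x ≠ 1 → x ∉ N := by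
  induction S, hS using Set.Finite.induction_on with
  | empty =>
    refine ⟨_, ⟨{ E := ℂ, ρ := 1, cont := continuous_const, isom := fun x v => rfl }, rfl⟩, by simp⟩
  | insert ha hs ih =>
    rename_i a s
    obtain ⟨U, hU, hU2⟩ := ih
    by_cases hcase : a = 1
    · refine ⟨U, hU, ?_⟩
      rintro x (rfl | hx) hx1
      · exact absurd hcase hx1
      · exact hU2 x hx hx1
    · obtain ⟨V, hV, haV⟩ := RK.sep a hcase
      refine ⟨U ⊓ V, RK.inf hU hV, ?_⟩
      rintro x (rfl | hx) hx1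
      · exact fun h => haV h.2
      · exact fun h => hU2 x hx hx1 h.1

theorem exists_RK_inf_eq_bot {D : Subgroup K} (hD : (D : Set K).Finite) :
    ∃ N : Subgroup K, RK N ∧ D ⊓ N = ⊥ := by
  obtain ⟨N, hN, h⟩ := exists_RK_disjoint (D : Set K) hD
  refine ⟨N, hN, ?_⟩
  rw [eq_bot_iff]
  intro x hx
  by_contra hx1
  exact h x hx.1 (by simpa using hx1) hx.2

/-- `m`-torsion of an abelian subgroup -/
def tor (D : Subgroup K) (hab : Ab D) (m : ℕ) : Subgroup K where
  carrier := {d | d ∈ D ∧ d ^ m = 1}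
  one_mem' := ⟨D.one_mem, one_pow _⟩
  mul_mem' := by
    rintro a b ⟨ha, ha2⟩ ⟨hb, hb2⟩
    refine ⟨D.mul_mem ha hb, ?_⟩
    have hc : Commute a b := hab a ha b hb
    rw [hc.mul_pow, ha2, hb2, one_mul]
  inv_mem' := by
    rintro a ⟨ha, ha2⟩
    exact ⟨D.inv_mem ha, by rw [inv_pow, ha2, inv_one]⟩

theorem abelian_case (hSC : SC K) {D : Subgroup K} (hD : CN D) (hab : Ab D) :
    ∃ N : Subgroup K, RK N ∧ D ⊓ N = ⊥ := by
  by_contra hcon
  push Not at hcon
  have htorCN : ∀ m, CN (tor D hab m) := by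
    intro m
    refine ⟨⟨?_⟩, ?_⟩
    · rintro x ⟨hx, hx2⟩ g
      exact ⟨hD.normal.conj_mem x hx g, by rw [conj_pow, hx2, mul_one, mul_inv_cancel]⟩
    · have : (tor D hab m : Set K) = (D : Set K) ∩ {d | d ^ m = 1} := rfl
      rw [this]
      exact hD.closed.inter (isClosed_eq (continuous_pow m) continuous_const)
  have htorfin : ∀ m, 0 < m → (tor D hab m : Set K).Finite := by
    intro m hm
    apply finite_of_BE hSC (htorCN m)
    · exact fun a ha b hb => hab a ha.1 b hb.1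
    · exact fun r => ⟨m, hm, fun b hb => by rw [hb.2, map_one]⟩
  have hex : ∀ m : ℕ, ∃ N : Subgroup K, RK N ∧ tor D hab (m + 1) ⊓ N = ⊥ := fun m =>
    exists_RK_inf_eq_bot (htorfin (m + 1) (Nat.succ_pos m))
  choose N hN hN2 using hex
  -- antitone version
  let M : ℕ → {N : Subgroup K // RK N} := fun n =>
    Nat.rec ⟨N 0, hN 0⟩ (fun n M => ⟨M.1 ⊓ N (n + 1), RK.inf M.2 (hN (n + 1))⟩) n
  have hM0 : (M 0).1 = N 0 := rfl
  have hMs : ∀ n, (M (n + 1)).1 = (M n).1 ⊓ N (n + 1) := fun n => rfl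
  have hMN : ∀ n, (M n).1 ≤ N n := by
    intro n
    cases n with
    | zero => exact le_of_eq hM0
    | succ n => rw [hMs]; exact inf_le_right
  have hanti : Antitone fun n => (M n).1 := by
    apply antitone_nat_of_succ_le
    intro n
    show (M (n + 1)).1 ≤ (M n).1
    rw [hMs]
    exact inf_le_left
  set Dw : Subgroup K := ⨅ n, D ⊓ (M n).1 with hDw
  have hDwCN : CN Dw := CN_iInf fun n => hD.inf (M n).2.CN
  have hDwD : Dw ≤ D := (iInf_le _ 0).trans inf_le_left
  have hne : Dw ≠ ⊥ := by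
    apply hSC (fun n => D ⊓ (M n).1) (fun n => hD.inf (M n).2.CN)
    · intro m n hmn
      exact inf_le_inf_left _ (hanti hmn)
    · intro n
      exact hcon _ (M n).2
  apply hne
  apply eq_bot_of_TF hSC hDwCN
  · exact fun a ha b hb => hab a (hDwD ha) b (hDwD hb)
  · intro x hx m hm hxm
    have h1 : x ∈ tor D hab ((m - 1) + 1) ⊓ N (m - 1) := by
      refine ⟨⟨hDwD hx, ?_⟩, ?_⟩
      · rw [Nat.sub_add_cancel hm]; exact hxm
      · have := (iInf_le (fun n => D ⊓ (M n).1) (m - 1)) hx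
        exact hMN _ this.2
    rw [hN2, Subgroup.mem_bot] at h1
    exact h1

end Pool.Agent.Lib.MP_5ca319_gt
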