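import Mathlib

/-!
Closed normal subgroups of a compact group, the chain condition `SC`, and the theorem that
under `SC` every residually finite closed normal subgroup is finite.
-/

set_option autoImplicit false
set_option linter.all false

open Filter Topology

namespace Pool.Agent.Lib.MP_5ca319_gt

variable {K : Type*} [Group K] [TopologicalSpace K]

/-- Closed normal subgroup. -/
structure CN (H : Subgroup K) : Prop where
  normal : H.Normal
  closed : IsClosed (H : Set K)

/-- Every decreasing sequence of nontrivial closed normal subgroups has nontrivial intersection. -/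
def SC (K : Type*) [Group K] [TopologicalSpace K] : Prop :=
  ∀ H : ℕ → Subgroup K, (∀ n, CN (H n)) → Antitone H → (∀ n, H n ≠ ⊥) → (⨅ n, H n) ≠ ⊥

theorem CN.top : CN (⊤ : Subgroup K) := ⟨inferInstance, by simp⟩

theorem CN.bot [T1Space K] : CN (⊥ : Subgroup K) := ⟨inferInstance, by simp⟩

theorem CN_sInf {S : Set (Subgroup K)} (h : ∀ U ∈ S, CN U) : CN (sInf S) := by
  refine ⟨⟨fun n hn g => ?_⟩, ?_⟩
  · rw [Subgroup.mem_sInf] at hn ⊢
    intro U hU
    exact (h U hU).normal.conj_mem n (hn U hU) g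
  · have : ((sInf S : Subgroup K) : Set K) = ⋂ U ∈ S, (U : Set K) := by
      simp [Subgroup.coe_sInf]
    rw [this]
    exact isClosed_biInter fun U hU => (h U hU).closed

theorem CN_iInf {ι : Sort*} {f : ι → Subgroup K} (h : ∀ i, CN (f i)) : CN (⨅ i, f i) := by
  rw [_root_.iInf]
  apply CN_sInf
  rintro _ ⟨i, rfl⟩
  exact h i

theorem CN.inf {A B : Subgroup K} (hA : CN A) (hB : CN B) : CN (A ⊓ B) := by
  have : A ⊓ B = sInf {A, B} := by simp
  rw [this]
  apply CN_sInf
  rintro U (rfl | rfl)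
  · exact hA
  · exact hB

theorem CN.sup [IsTopologicalGroup K] [CompactSpace K] [T2Space K] {A B : Subgroup K}
    (hA : CN A) (hB : CN B) : CN (A ⊔ B) := by
  have := hA.normal
  have := hB.normal
  refine ⟨inferInstance, ?_⟩
  rw [Subgroup.mul_normal]
  exact (hA.closed.isCompact.mul hB.closed.isCompact).isClosed

/-- closed normal subgroups `U ≤ N` of finite index in `N` -/
def FI (N : Subgroup K) : Set (Subgroup K) := {U | CN U ∧ U ≤ N ∧ U.relIndex N ≠ 0}

theorem FI.inf {N U V : Subgroup K} (hU : U ∈ FI N) (hV : V ∈ FI N) : U ⊓ V ∈ FI N :=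
  ⟨hU.1.inf hV.1, inf_le_left.trans hU.2.1, Subgroup.relIndex_inf_ne_zero hU.2.2 hV.2.2⟩

/-- the residual of a closed normal subgroup -/
def res (N : Subgroup K) : Subgroup K := sInf (FI N)

theorem self_mem_FI {N : Subgroup K} (hN : CN N) : N ∈ FI N :=
  ⟨hN, le_rfl, by simp⟩

theorem res_le {N : Subgroup K} (hN : CN N) : res N ≤ N := sInf_le (self_mem_FI hN)

theorem CN_res {N : Subgroup K} : CN (res N) := CN_sInf fun _ hU => hU.1

theorem res_mono {M N : Subgroup K} (hM : CN M) (h : M ≤ N) :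
    res M ≤ res N := by
  apply le_sInf
  intro U hU
  have : U ⊓ M ∈ FI M := by
    refine ⟨hU.1.inf hM, inf_le_right, ?_⟩
    rw [Subgroup.inf_relIndex_right]
    exact fun h0 => hU.2.2 (Subgroup.relIndex_eq_zero_of_le_right h h0)
  exact (sInf_le this).trans inf_le_left

/-- Residual finiteness of `N` by closed `K`-normal subgroups. -/
def RF (N : Subgroup K) : Prop := ∀ x ∈ N, x ≠ 1 → ∃ U ∈ FI N, x ∉ U

theorem RF_iff {N : Subgroup K} (hN : CN N) : RF N ↔ res N = ⊥ := by
  constructor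
  · intro h
    rw [eq_bot_iff]
    intro x hx
    by_contra hx1
    obtain ⟨U, hU, hxU⟩ := h x (res_le hN hx) (by simpa using hx1)
    exact hxU (sInf_le hU hx)
  · intro h x _ hx1
    by_contra hcon
    push Not at hcon
    have : x ∈ res N := by
      rw [res, Subgroup.mem_sInf]
      exact fun U hU => hcon U hU
    rw [h, Subgroup.mem_bot] at this
    exact hx1 this

theorem RF.mono {M N : Subgroup K} (hM : CN M) (hN : CN N) (h : M ≤ N) (hRF : RF N) : RF M := by
  rw [RF_iff hM, eq_bot_iff]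
  rw [RF_iff hN] at hRF
  rw [← hRF]
  exact res_mono hM h

/-- nontrivial elements of `R` are avoided by closed `K`-normal subgroups of index `≤ n` -/
def BI (R : Subgroup K) (n : ℕ) : Prop :=
  ∀ x ∈ R, x ≠ 1 → ∃ U ∈ FI R, U.relIndex R ≤ n ∧ x ∉ U

theorem exists_BI (hSC : SC K) {R : Subgroup K} (hR : CN R) (hRF : RF R) : ∃ n, BI R n := by
  by_contra hcon
  push Not at hcon
  set V : ℕ → Subgroup K := fun n => sInf ({U | U ∈ FI R ∧ U.relIndex R ≤ n} ∪ {R}) with hV
  have hCN : ∀ n, CN (V n) := by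
    intro n
    apply CN_sInf
    rintro U (hU | hU)
    · exact hU.1.1
    · rw [Set.mem_singleton_iff] at hU
      rw [hU]; exact hR
  have hanti : Antitone V := by
    intro m n hmn
    apply sInf_le_sInf
    apply Set.union_subset_union_left
    rintro U ⟨h1, h2⟩
    exact ⟨h1, h2.trans hmn⟩
  have hne : ∀ n, V n ≠ ⊥ := by
    intro n hbot
    apply hcon n
    intro x hx hx1
    by_contra hcon2
    push Not at hcon2
    have : x ∈ V n := by
      rw [hV, Subgroup.mem_sInf]
      rintro U (hU | hU)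
      · exact hcon2 U hU.1 hU.2
      · rw [Set.mem_singleton_iff] at hU
        rw [hU]; exact hx
    rw [hbot, Subgroup.mem_bot] at this
    exact hx1 this
  apply hSC V hCN hanti hne
  rw [eq_bot_iff]
  intro x hx
  rw [Subgroup.mem_iInf] at hx
  have hxR : x ∈ R := by
    have := hx 0
    rw [hV, Subgroup.mem_sInf] at this
    exact this R (Or.inr rfl)
  by_contra hx1
  obtain ⟨U, hU, hxU⟩ := hRF x hxR (by simpa using hx1)
  have := hx (U.relIndex R)
  rw [hV, Subgroup.mem_sInf] at this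
  exact hxU (this U (Or.inl ⟨hU, le_rfl⟩))

theorem relIndex_lt_of_lt {A B R : Subgroup K} (h : A < B) (hB : B ≤ R)
    (hA : A.relIndex R ≠ 0) : B.relIndex R < A.relIndex R := by
  have h1 := Subgroup.relIndex_mul_relIndex A B R h.le hB
  have h2 : A.relIndex B ≠ 1 := by
    rw [Ne, Subgroup.relIndex_eq_one]
    exact fun h' => absurd (h.trans_le h') (lt_irrefl _)
  have h3 : A.relIndex B ≠ 0 := by
    intro h0; rw [h0, zero_mul] at h1; exact hA h1.symm
  have h4 : B.relIndex R ≠ 0 := by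
    intro h0; rw [h0, mul_zero] at h1; exact hA h1.symm
  have h5 : 2 ≤ A.relIndex B := by omega
  rw [← h1]
  nlinarith [Nat.pos_of_ne_zero h4]

/-- maximal closed normal finite index subgroups of `R` -/
def MX (R : Subgroup K) : Set (Subgroup K) :=
  {M | M ∈ FI R ∧ M ≠ R ∧ ∀ Q, CN Q → Q ≤ R → Q ≤ M ∨ R ≤ M ⊔ Q}

theorem exists_MX [IsTopologicalGroup K] [CompactSpace K] [T2Space K] {R U : Subgroup K}
    (hU : U ∈ FI R) (hne : U ≠ R) : ∃ M ∈ MX R, U ≤ M := by
  classical
  set S : Set ℕ := {n | ∃ M, M ∈ FI R ∧ M ≠ R ∧ U ≤ M ∧ M.relIndex R = n} with hS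
  have hSne : S.Nonempty := ⟨_, U, hU, hne, le_rfl, rfl⟩
  obtain ⟨M, hM1, hM2, hM3, hM4⟩ := Nat.sInf_mem hSne
  refine ⟨M, ⟨hM1, hM2, ?_⟩, hM3⟩
  intro Q hQ hQR
  by_contra hcon
  push Not at hcon
  obtain ⟨h1, h2⟩ := hcon
  have hlt : M < M ⊔ Q := by
    refine lt_of_le_of_ne le_sup_left ?_
    intro h
    exact h1 (by rw [h]; exact le_sup_right)
  have hle : M ⊔ Q ≤ R := sup_le hM1.2.1 hQR
  have hidx := relIndex_lt_of_lt hlt hle hM1.2.2
  have hmem : (M ⊔ Q).relIndex R ∈ S := by
    refine ⟨M ⊔ Q, ⟨hM1.1.sup hQ, hle, ?_⟩, ?_, hM3.trans le_sup_left, rfl⟩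
    · intro h0
      have := Subgroup.relIndex_mul_relIndex M (M ⊔ Q) R hlt.le hle
      rw [h0, mul_zero] at this
      exact hM1.2.2 this.symm
    · intro h; exact h2 h.ge
  have := Nat.sInf_le hmem
  omega

theorem modular_law {A B C : Subgroup K} (hB : B.Normal) (h : C ≤ A) :
    A ⊓ (B ⊔ C) ≤ (A ⊓ B) ⊔ C := by
  intro x hx0
  rw [Subgroup.mem_inf] at hx0
  obtain ⟨hxA, hx⟩ := hx0
  rw [Subgroup.mem_sup_of_normal_left] at hx
  obtain ⟨b, hb, c, hc, rfl⟩ := hx
  have hbA : b ∈ A := by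
    have := A.mul_mem hxA (A.inv_mem (h hc))
    simpa using this
  exact Subgroup.mul_mem_sup ⟨hbA, hb⟩ hc

theorem infinite_of_relIndex {A R : Subgroup K} (hAR : A ≤ R) (hR : (R : Set K).Infinite)
    (h : A.relIndex R ≠ 0) : (A : Set K).Infinite := by
  intro hfin
  apply hR
  have h1 : Finite A := hfin
  have h2 : (A.subgroupOf R).index ≠ 0 := h
  have h3 := Subgroup.card_mul_index (A.subgroupOf R)
  have h4 : Nat.card (A.subgroupOf R) = Nat.card A :=
    Nat.card_congr (Subgroup.subgroupOfEquivOfLe hAR).toEquiv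
  have h5 : Nat.card A ≠ 0 := Nat.card_pos.ne'
  have h6 : Nat.card R ≠ 0 := by
    rw [← h3, h4]
    exact mul_ne_zero h5 h2
  exact Nat.finite_of_card_ne_zero h6

end Pool.Agent.Lib.MP_5ca319_gt
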