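import Pool.Agent.Lib.MP_5ca319_gt.Faithful

/-!
A Hausdorff countably compact group is a dense subgroup of a compact group.
-/

set_option autoImplicit false
set_option linter.all false

open Filter Topology Uniformity

namespace Pool.Agent.Lib.MP_5ca319_gt

section TB

variable {G : Type} [Group G] [TopologicalSpace G] [IsTopologicalGroup G]

/-- total boundedness -/
def TB (G : Type) [Group G] [TopologicalSpace G] : Prop :=
  ∀ U ∈ 𝓝 (1 : G), ∃ F : Finset G, ∀ g : G, ∃ x ∈ F, x⁻¹ * g ∈ U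

theorem TB_of_cc (h : ∀ u : ℕ → G, ∃ x : G, MapClusterPt x atTop u) : TB G := by
  intro U hU
  by_contra hcon
  push Not at hcon
  obtain ⟨u, -, hu⟩ := exists_seq_of_forall_finset_exists (fun _ : G => True)
    (fun x g => x⁻¹ * g ∉ U) (fun s _ => by
      obtain ⟨g, hg⟩ := hcon s
      exact ⟨g, trivial, fun x hx => hg x hx⟩)
  obtain ⟨x, hx⟩ := h u
  have hc : Tendsto (fun p : G × G => p.1⁻¹ * p.2) (𝓝 (x, x)) (𝓝 (1 : G)) := by
    have : Continuous fun p : G × G => p.1⁻¹ * p.2 := by fun_prop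
    simpa using this.tendsto (x, x)
  rw [nhds_prod_eq] at hc
  have h1 := hc hU
  rw [mem_map, mem_prod_iff] at h1
  obtain ⟨V1, hV1, V2, hV2, hV⟩ := h1
  have hVV : V1 ∩ V2 ∈ 𝓝 x := inter_mem hV1 hV2
  rw [mapClusterPt_iff_frequently] at hx
  have h2 := hx _ hVV
  obtain ⟨m, hm⟩ := h2.exists
  obtain ⟨n, hmn, hn⟩ := (frequently_atTop.1 h2) (m + 1)
  exact hu m n hmn (@hV (u m, u n) ⟨hm.1, hn.2⟩)

theorem conj_of_TB (h : TB G) : ∀ U ∈ 𝓝 (1 : G), ∃ V ∈ 𝓝 (1 : G), ∀ g : G, ∀ v ∈ V,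
    g⁻¹ * v * g ∈ U := by
  intro U hU
  have hc : Tendsto (fun p : G × G × G => p.1⁻¹ * p.2.1 * p.2.2) (𝓝 (1, 1, 1)) (𝓝 (1 : G)) := by
    have : Continuous fun p : G × G × G => p.1⁻¹ * p.2.1 * p.2.2 := by fun_prop
    simpa using this.tendsto (1, 1, 1)
  rw [nhds_prod_eq, nhds_prod_eq] at hc
  have h1 := hc hU
  rw [mem_map, mem_prod_iff] at h1
  obtain ⟨W1, hW1, W', hW', hW⟩ := h1
  rw [mem_prod_iff] at hW'
  obtain ⟨W2, hW2, W3, hW3, hW23⟩ := hW'
  set W := W1 ∩ (W2 ∩ W3) with hWdef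
  have hWn : W ∈ 𝓝 (1 : G) := inter_mem hW1 (inter_mem hW2 hW3)
  obtain ⟨F, hF⟩ := h W hWn
  refine ⟨⋂ x ∈ F, {v | x⁻¹ * v * x ∈ W}, ?_, ?_⟩
  · rw [Filter.biInter_finset_mem]
    intro x hx
    have : Continuous fun v : G => x⁻¹ * v * x := by fun_prop
    have h3 := this.tendsto 1
    simp only [mul_one, inv_mul_cancel] at h3
    exact h3 hWn
  · intro g v hv
    obtain ⟨x, hxF, hxg⟩ := hF g
    simp only [Set.mem_iInter] at hv
    have h4 := hv x hxF
    have h5 : g⁻¹ * v * g = (x⁻¹ * g)⁻¹ * (x⁻¹ * v * x) * (x⁻¹ * g) := by group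
    rw [h5]
    exact @hW (x⁻¹ * g, x⁻¹ * v * x, x⁻¹ * g) ⟨hxg.1, hW23 ⟨h4.2.1, hxg.2.2⟩⟩

theorem unif_eq (h : TB G) :
    comap (fun p : G × G => p.2 * p.1⁻¹) (𝓝 1) = comap (fun p : G × G => p.1⁻¹ * p.2) (𝓝 1) := by
  apply le_antisymm
  · intro s hs
    rw [mem_comap] at hs
    obtain ⟨U, hU, hUs⟩ := hs
    obtain ⟨V, hV, hVU⟩ := conj_of_TB h U hU
    refine mem_comap.2 ⟨V, hV, ?_⟩
    rintro ⟨x, y⟩ hxy
    apply hUs
    have := hVU x _ hxy
    have h6 : x⁻¹ * (y * x⁻¹) * x = x⁻¹ * y := by group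
    simpa [h6] using this
  · intro s hs
    rw [mem_comap] at hs
    obtain ⟨U, hU, hUs⟩ := hs
    obtain ⟨V, hV, hVU⟩ := conj_of_TB h U hU
    refine mem_comap.2 ⟨V, hV, ?_⟩
    rintro ⟨x, y⟩ hxy
    apply hUs
    have := hVU x⁻¹ _ hxy
    simpa using this

theorem conj_tendsto (h : TB G) :
    Tendsto (fun gx : G × G => gx.1 * gx.2 * gx.1⁻¹) (comap Prod.snd (𝓝 1)) (𝓝 1) := by
  intro U hU
  obtain ⟨V, hV, hVU⟩ := conj_of_TB h U hU
  rw [mem_map, mem_comap]
  refine ⟨V, hV, ?_⟩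
  rintro ⟨g, v⟩ hv
  have := hVU g⁻¹ v hv
  simpa using this

end TB

section AddSide

variable {A : Type} [AddGroup A] [UniformSpace A] [IsLeftUniformAddGroup A]
  [IsRightUniformAddGroup A]

theorem isUniformAddGroup_of_left_right' : IsUniformAddGroup A where
  uniformContinuous_sub := by
    let φ : (A × A) × (A × A) → A := fun p ↦ p.1.2 + -p.2.2 + p.2.1 + -p.1.1
    let ψ : (A × A) × (A × A) → A := fun p ↦ (-p.1.1 + p.1.2) + (-p.2.2 + p.2.1)
    let g : (A × A) × (A × A) → A := fun p ↦ p.1.1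
    suffices Tendsto φ (𝓤 A ×ˢ 𝓤 A) (𝓝 0) by
      rw [UniformContinuous, uniformity_eq_comap_add_neg_nhds_zero A, tendsto_comap_iff,
        uniformity_prod_eq_prod, tendsto_map'_iff]
      simpa [Function.comp_def, sub_eq_add_neg, ← add_assoc]
    have φ_ψ_conj : φ = g + ψ + -g := by
      ext
      simp [φ, ψ, g, add_assoc]
    have ψ_tendsto : Tendsto ψ (𝓤 A ×ˢ 𝓤 A) (𝓝 0) := by
      rw [← add_zero 0]
      refine .add ?_ ?_
      · rw [uniformity_eq_comap_neg_add_nhds_zero]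
        exact tendsto_comap.comp tendsto_fst
      · rw [uniformity_eq_comap_neg_add_nhds_zero_swapped]
        exact tendsto_comap.comp tendsto_snd
    exact φ_ψ_conj ▸ ψ_tendsto.addConj_nhds_zero g

end AddSide

section Main

variable {G : Type} [Group G] [TopologicalSpace G] [IsTopologicalGroup G]

theorem exists_compl [T2Space G] (h : TB G) :
    ∃ (K : Type) (_ : Group K) (_ : TopologicalSpace K) (_ : IsTopologicalGroup K)
      (_ : CompactSpace K) (_ : T2Space K) (i : G →* K), IsDenseInducing i := by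
  letI u : UniformSpace (Additive G) := IsTopologicalAddGroup.rightUniformSpace (Additive G)
  have hL : IsRightUniformAddGroup (Additive G) := ⟨rfl⟩
  have hR : IsLeftUniformAddGroup (Additive G) := ⟨unif_eq (G := G) h⟩
  have hU : IsUniformAddGroup (Additive G) := isUniformAddGroup_of_left_right'
  have htb : TotallyBounded (Set.univ : Set (Additive G)) := by
    rw [totallyBounded_iff_subset_finite_iUnion_nhds_zero]
    intro U hU
    obtain ⟨F, hF⟩ := h U hU
    refine ⟨Additive.ofMul '' (F : Set G), F.finite_toSet.image _, ?_⟩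
    intro g _
    obtain ⟨x, hxF, hx⟩ := hF g.toMul
    simp only [Set.mem_iUnion]
    refine ⟨Additive.ofMul x, ⟨x, hxF, rfl⟩, ?_⟩
    rw [Set.mem_vadd_set]
    refine ⟨Additive.ofMul (x⁻¹ * g.toMul), hx, ?_⟩
    rw [vadd_eq_add, ← ofMul_mul, mul_inv_cancel_left]
    rfl
  have hc : CompactSpace (UniformSpace.Completion (Additive G)) := by
    rw [← isCompact_univ_iff, isCompact_iff_totallyBounded_isComplete]
    refine ⟨?_, complete_univ⟩
    have h1 := (htb.image (UniformSpace.Completion.uniformContinuous_coe (Additive G))).closure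
    rw [Set.image_univ, UniformSpace.Completion.denseRange_coe.closure_range] at h1
    exact h1
  have hT2 : T2Space (UniformSpace.Completion (Additive G)) := inferInstance
  have hta : IsTopologicalAddGroup (UniformSpace.Completion (Additive G)) := inferInstance
  exact ⟨Multiplicative (UniformSpace.Completion (Additive G)), inferInstance, inferInstance,
    inferInstance, inferInstance, hT2,
    AddMonoidHom.toMultiplicativeRight (UniformSpace.Completion.toCompl (α := Additive G)),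
    UniformSpace.Completion.isDenseInducing_toCompl (Additive G)⟩

end Main

end Pool.Agent.Lib.MP_5ca319_gt
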