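import Pool.Agent.Lib.MP_5ca319_gt.Abelian

/-!
A compact group satisfying `SC` has a faithful finite-dimensional unitary representation.
-/

set_option autoImplicit false
set_option linter.all false

open Filter Topology

namespace Pool.Agent.Lib.MP_5ca319_gt

variable {K : Type} [Group K] [TopologicalSpace K] [IsTopologicalGroup K] [CompactSpace K]
  [T2Space K]

/-- centralizer -/
def Ce (N : Subgroup K) : Subgroup K := Subgroup.centralizer (N : Set K)

theorem mem_Ce {N : Subgroup K} {x : K} : x ∈ Ce N ↔ ∀ n ∈ N, n * x = x * n := by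
  rw [Ce, Subgroup.mem_centralizer_iff]
  exact Iff.rfl

theorem CN_Ce {N : Subgroup K} (hN : CN N) : CN (Ce N) := by
  refine ⟨⟨?_⟩, ?_⟩
  · intro x hx g
    rw [mem_Ce] at hx ⊢
    intro n hn
    have h1 := hx (g⁻¹ * n * g) (by simpa using hN.normal.conj_mem n hn g⁻¹)
    have h2 : n * (g * x * g⁻¹) = g * ((g⁻¹ * n * g) * x) * g⁻¹ := by group
    have h3 : (g * x * g⁻¹) * n = g * (x * (g⁻¹ * n * g)) * g⁻¹ := by group
    rw [h2, h3, h1]
  · have : (Ce N : Set K) = ⋂ n ∈ N, {x | n * x = x * n} := by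
      ext x; simp [mem_Ce]
    rw [this]
    refine isClosed_biInter fun n _ => isClosed_eq ?_ ?_
    · exact continuous_const.mul continuous_id
    · exact continuous_id.mul continuous_const

theorem Ce_anti {M N : Subgroup K} (h : M ≤ N) : Ce N ≤ Ce M := by
  intro x hx
  rw [mem_Ce] at hx ⊢
  exact fun n hn => hx n (h hn)

theorem res_infinite (hSC : SC K) (hno : ¬ RK (⊥ : Subgroup K)) {N : Subgroup K} (hN : RK N) :
    ¬ (res N : Set K).Finite := by
  intro hfin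
  obtain ⟨N1, hN1, h1⟩ := exists_RK_inf_eq_bot hfin
  have hN2 : RK (N ⊓ N1) := hN.inf hN1
  have h2 : res (N ⊓ N1) = ⊥ := by
    rw [eq_bot_iff, ← h1]
    apply le_inf
    · exact res_mono hN2.CN inf_le_left
    · exact (res_le hN2.CN).trans inf_le_right
  have h3 : RF (N ⊓ N1) := (RF_iff hN2.CN).2 h2
  have h4 := finite_of_RF hSC hN2.CN h3
  obtain ⟨N3, hN3, h5⟩ := exists_RK_inf_eq_bot h4
  apply hno
  rw [← h5]
  exact hN2.inf hN3

theorem exists_next (hSC : SC K) (hno : ¬ RK (⊥ : Subgroup K)) {N : Subgroup K} (hN : RK N) :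
    ∃ N' : Subgroup K, RK N' ∧ N' ≤ N ∧ N ⊓ Ce N' ⊓ res (⊤ : Subgroup K) ≠ ⊥ := by
  by_contra hcon
  push Not at hcon
  apply res_infinite hSC hno hN
  apply finite_of_RF hSC CN_res
  intro x hx hx1
  obtain ⟨N1, hN1, hxN1⟩ := RK.sep x hx1
  set N' : Subgroup K := N ⊓ N1 with hN'
  have hN'RK : RK N' := hN.inf hN1
  have hN'N : N' ≤ N := inf_le_left
  have hF : CN (N ⊓ Ce N') := hN.CN.inf (CN_Ce hN'RK.CN)
  have hresF : res (N ⊓ Ce N') = ⊥ := by
    rw [eq_bot_iff, ← hcon N' hN'RK hN'N]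
    exact le_inf (res_le hF) (res_mono hF le_top)
  have hFfin := finite_of_RF hSC hF ((RF_iff hF).2 hresF)
  have hNn := hN'RK.CN.normal
  have hle : res N ≤ N' ⊔ (N ⊓ Ce N') := by
    intro y hy
    have hyN : y ∈ N := res_le hN.CN hy
    have hyK : y ∈ res (⊤ : Subgroup K) := res_mono hN.CN le_top hy
    obtain ⟨z, hz, hzc⟩ := iwasawa hN'RK.CN hyK
    have h1 : y = z * (z⁻¹ * y) := by group
    rw [h1]
    refine Subgroup.mul_mem_sup hz ⟨N.mul_mem (N.inv_mem (hN'N hz)) hyN, ?_⟩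
    show z⁻¹ * y ∈ Ce N'
    rw [mem_Ce]
    exact fun n hn => (hzc n hn).symm
  have hidx : N'.relIndex (N' ⊔ (N ⊓ Ce N')) ≠ 0 := by
    rw [Subgroup.relIndex_sup_left]
    have : Finite (N ⊓ Ce N' : Subgroup K) := hFfin
    show (N'.subgroupOf (N ⊓ Ce N')).index ≠ 0
    exact Subgroup.index_ne_zero_of_finite
  have hidx2 : N'.relIndex (res N) ≠ 0 := fun h0 =>
    hidx (Subgroup.relIndex_eq_zero_of_le_right hle h0)
  refine ⟨N' ⊓ res N, ⟨hN'RK.CN.inf CN_res, inf_le_right, ?_⟩, ?_⟩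
  · rw [Subgroup.inf_relIndex_right]
    exact hidx2
  · intro h
    exact hxN1 h.1.2

theorem faithful (hSC : SC K) : RK (⊥ : Subgroup K) := by
  by_contra hno
  set K0 : Subgroup K := res (⊤ : Subgroup K) with hK0
  have hK0CN : CN K0 := CN_res
  have hZCN : CN (K0 ⊓ Ce K0) := hK0CN.inf (CN_Ce hK0CN)
  have hZab : Ab (K0 ⊓ Ce K0) := by
    intro a ha b hb
    exact mem_Ce.1 hb.2 a ha.1
  obtain ⟨N0, hN0, hN0Z⟩ := abelian_case hSC hZCN hZab
  choose f hf hfle hfne using fun N : {N : Subgroup K // RK N} => exists_next hSC hno N.2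
  let next : {N : Subgroup K // RK N} → {N : Subgroup K // RK N} := fun N => ⟨f N, hf N⟩
  let N : ℕ → {N : Subgroup K // RK N} := fun n => next^[n] ⟨N0, hN0⟩
  have hNs : ∀ n, N (n + 1) = next (N n) := by
    intro n
    simp only [N, Function.iterate_succ_apply']
  have hNs' : ∀ n, (N (n + 1)).1 = f (N n) := by
    intro n
    rw [hNs]
  have hanti : Antitone fun n => (N n).1 := by
    apply antitone_nat_of_succ_le
    intro n
    show (N (n + 1)).1 ≤ (N n).1
    rw [hNs']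
    exact hfle _
  let R : ℕ → Subgroup K := fun n => (N n).1 ⊓ Ce (N (n + 1)).1 ⊓ K0
  have hRne : ∀ n, R n ≠ ⊥ := by
    intro n
    show (N n).1 ⊓ Ce (N (n + 1)).1 ⊓ K0 ≠ ⊥
    rw [hNs']
    exact hfne _
  let Q : ℕ → Subgroup K := fun k => sInf {U | CN U ∧ ∀ j, k ≤ j → R j ≤ U}
  have hQCN : ∀ k, CN (Q k) := fun k => CN_sInf fun U hU => hU.1
  have hRQ : ∀ k j, k ≤ j → R j ≤ Q k := by
    intro k j hkj
    apply le_sInf
    intro U hU
    exact hU.2 j hkj
  have hQanti : Antitone Q := by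
    intro k k' hkk'
    apply sInf_le_sInf
    rintro U ⟨hU, hU2⟩
    exact ⟨hU, fun j hj => hU2 j (hkk'.trans hj)⟩
  have hQne : ∀ k, Q k ≠ ⊥ := by
    intro k hbot
    apply hRne k
    rw [eq_bot_iff, ← hbot]
    exact hRQ k k le_rfl
  set Qi : Subgroup K := ⨅ k, Q k with hQi
  have hQiCN : CN Qi := CN_iInf hQCN
  have hQine : Qi ≠ ⊥ := hSC Q hQCN hQanti hQne
  have hQN : ∀ k, Q k ≤ (N k).1 := by
    intro k
    apply sInf_le
    refine ⟨(N k).2.CN, fun j hkj => ?_⟩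
    exact (inf_le_left.trans inf_le_left).trans (hanti hkj)
  have hQiN : ∀ k, Qi ≤ (N k).1 := fun k => (iInf_le _ k).trans (hQN k)
  have hRC : ∀ j, R j ≤ Ce Qi := by
    intro j
    exact (inf_le_left.trans inf_le_right).trans (Ce_anti (hQiN (j + 1)))
  have hQ0C : Q 0 ≤ Ce Qi := sInf_le ⟨CN_Ce hQiCN, fun j _ => hRC j⟩
  have hQ0K : Q 0 ≤ K0 := sInf_le ⟨hK0CN, fun j _ => inf_le_right⟩
  have hQi0 : Qi ≤ Q 0 := iInf_le _ 0
  have hQiab : Ab Qi := by
    intro a ha b hb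
    exact mem_Ce.1 (hQ0C (hQi0 hb)) a ha
  have hQiZ : Qi ≤ K0 ⊓ Ce K0 := by
    refine le_inf (hQi0.trans hQ0K) ?_
    intro q hq
    rw [mem_Ce]
    intro x hx
    obtain ⟨y, hy, hyc⟩ := iwasawa hQiCN hx
    have h1 := hyc q hq
    have h2 := hQiab y hy q hq
    calc x * q = y * ((y⁻¹ * x) * q) := by group
      _ = y * (q * (y⁻¹ * x)) := by rw [h1]
      _ = (y * q) * (y⁻¹ * x) := by group
      _ = (q * y) * (y⁻¹ * x) := by rw [h2]
      _ = q * x := by group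
  apply hQine
  rw [eq_bot_iff, ← hN0Z]
  exact le_inf hQiZ (hQiN 0)

end Pool.Agent.Lib.MP_5ca319_gt
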