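import Pool.Agent.Lib.MP_5ca319_gt.Completion

/-!
Minimality: essentiality of a dense minimal subgroup; conclusion.
-/

set_option autoImplicit false
set_option linter.all false

open Filter Topology

namespace Pool.Agent.Lib.MP_5ca319_gt

variable {G : Type} [Group G] [t : TopologicalSpace G] [IsTopologicalGroup G] [T2Space G]
  {K : Type} [Group K] [TopologicalSpace K] [IsTopologicalGroup K] [CompactSpace K] [T2Space K]
  {i : G →* K}

theorem essential (hi : IsDenseInducing i)
    (hmin : ∀ τ' : TopologicalSpace G, @IsTopologicalGroup G τ' _ → @T2Space G τ' →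
      t ≤ τ' → τ' = t)
    {H : Subgroup K} (hH : CN H) (hne : H ≠ ⊥) : ∃ g : G, g ≠ 1 ∧ i g ∈ H := by
  by_contra hcon
  push Not at hcon
  have := hH.normal
  have hcl : IsClosed (H : Set K) := hH.closed
  have : T3Space (K ⧸ H) := inferInstance
  let q : G →* K ⧸ H := (QuotientGroup.mk' H).comp i
  have hqc : Continuous q := QuotientGroup.continuous_mk.comp hi.isInducing.continuous
  have hqi : Function.Injective q := by
    rw [injective_iff_map_eq_one]
    intro g hg
    by_contra hg1
    apply hcon g hg1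
    have : (QuotientGroup.mk (i g) : K ⧸ H) = 1 := hg
    rwa [QuotientGroup.eq_one_iff] at this
  have h4 : TopologicalSpace.induced q inferInstance = t := by
    refine hmin _ (topologicalGroup_induced q) ?_ (continuous_iff_le_induced.1 hqc)
    letI : TopologicalSpace G := TopologicalSpace.induced q inferInstance
    exact T2Space.of_injective_continuous hqi continuous_induced_dom
  have hind : IsInducing q := ⟨h4.symm⟩
  obtain ⟨⟨h, hh⟩, hh1'⟩ := (Subgroup.ne_bot_iff_exists_ne_one).1 hne
  have hh1 : h ≠ 1 := fun h' => hh1' (Subtype.ext h')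
  have hF : (comap i (𝓝 h)).NeBot := hi.comap_nhds_neBot h
  have h5 : Tendsto i (comap i (𝓝 h)) (𝓝 h) := tendsto_comap
  have h6 : Tendsto q (comap i (𝓝 h)) (𝓝 (q 1)) := by
    have h7 : Tendsto (fun k : K => (QuotientGroup.mk k : K ⧸ H)) (𝓝 h) (𝓝 (QuotientGroup.mk h)) :=
      QuotientGroup.continuous_mk.tendsto h
    have h8 : (QuotientGroup.mk h : K ⧸ H) = q 1 := by
      rw [map_one]
      rwa [QuotientGroup.eq_one_iff]
    rw [h8] at h7
    exact h7.comp h5
  have h9 : Tendsto (fun g : G => g) (comap i (𝓝 h)) (𝓝 1) := by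
    rw [hind.tendsto_nhds_iff]
    exact h6
  have h10 : Tendsto i (comap i (𝓝 h)) (𝓝 1) := by
    have := (hi.isInducing.continuous.tendsto 1).comp h9
    rw [map_one] at this
    exact this
  exact hh1 (tendsto_nhds_unique h5 h10)

theorem exists_injective_subseq {g : ℕ → G} {x : G} (hg : Tendsto g atTop (𝓝 x))
    (hne : ∀ n, g n ≠ x) :
    ∃ (u : ℕ → G), Function.Injective u ∧ Tendsto u atTop (𝓝 x) := by
  obtain ⟨f, -, hf⟩ := exists_seq_of_forall_finset_exists (fun _ : ℕ => True)
    (fun x y => x < y ∧ g x ≠ g y) (fun s _ => by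
      have h1 : ∀ᶠ y in atTop, ∀ x ∈ s, x < y ∧ g x ≠ g y := by
        rw [Filter.eventually_all_finset]
        intro x' _
        have h2 : ∀ᶠ y in atTop, g y ≠ g x' := hg.eventually_ne (hne x').symm
        filter_upwards [h2, eventually_gt_atTop x'] with y hy hy'
        exact ⟨hy', hy.symm⟩
      obtain ⟨y, hy⟩ := h1.exists
      exact ⟨y, trivial, hy⟩)
  have hmono : StrictMono f := fun m n hmn => (hf m n hmn).1
  refine ⟨g ∘ f, ?_, hg.comp hmono.tendsto_atTop⟩
  intro m n hmn
  by_contra hne'
  rcases lt_or_gt_of_ne hne' with h | h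
  · exact (hf m n h).2 hmn
  · exact (hf n m h).2 hmn.symm

theorem SC_of_no_seq (hi : IsDenseInducing i)
    (hmin : ∀ τ' : TopologicalSpace G, @IsTopologicalGroup G τ' _ → @T2Space G τ' →
      t ≤ τ' → τ' = t)
    (hno : ¬ ∃ (u : ℕ → G) (x : G), Function.Injective u ∧ Tendsto u atTop (𝓝 x)) : SC K := by
  intro H hH hanti hne hbot
  choose g hg1 hgH using fun n => essential hi hmin (hH n) (hne n)
  apply hno
  have h1 : Tendsto (fun n => i (g n)) atTop (𝓝 1) := by
    rw [tendsto_nhds]
    intro U hU h1U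
    have h2 : ∃ n, (H n : Set K) ⊆ U := by
      have h3 := exists_subset_nhds_of_isCompact' (V := fun n => (H n : Set K)) (U := U) ?_ ?_ ?_ ?_
      · exact h3
      · intro a b
        refine ⟨max a b, ?_, ?_⟩
        · exact hanti (le_max_left _ _)
        · exact hanti (le_max_right _ _)
      · exact fun n => (hH n).closed.isCompact
      · exact fun n => (hH n).closed
      · intro x hx
        have h4 : x ∈ (⨅ n, H n) := by
          rw [Subgroup.mem_iInf]
          simpa using hx
        rw [hbot, Subgroup.mem_bot] at h4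
        rw [h4]
        exact hU.mem_nhds h1U
    obtain ⟨n, hn⟩ := h2
    filter_upwards [eventually_ge_atTop n] with m hm
    exact hn (hanti hm (hgH m))
  have h2 : Tendsto g atTop (𝓝 1) := by
    rw [hi.isInducing.tendsto_nhds_iff, map_one]
    exact h1
  obtain ⟨u, hu⟩ := exists_injective_subseq h2 hg1
  exact ⟨u, 1, hu⟩

theorem conclusion [Infinite G] (hcc : ∀ u : ℕ → G, ∃ x : G, MapClusterPt x atTop u)
    (hmin : ∀ τ' : TopologicalSpace G, @IsTopologicalGroup G τ' _ → @T2Space G τ' →
      t ≤ τ' → τ' = t) :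
    ∃ (u : ℕ → G) (x : G), Function.Injective u ∧ Tendsto u atTop (𝓝 x) := by
  by_contra hno
  obtain ⟨K, _, _, _, _, _, i, hi⟩ := exists_compl (TB_of_cc hcc)
  have hSC := SC_of_no_seq hi hmin hno
  obtain ⟨r, hr⟩ := faithful hSC
  have hinj : Function.Injective r.ρ := by
    rwa [MonoidHom.ker_eq_bot_iff] at hr
  have hemb := r.cont.isClosedEmbedding hinj
  have hK : FirstCountableTopology K := hemb.isInducing.firstCountableTopology
  have hG : FirstCountableTopology G := hi.isInducing.firstCountableTopology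
  obtain ⟨x, hx⟩ := hcc (Infinite.natEmbedding G)
  obtain ⟨ψ, hψ, hψx⟩ := hx.tendsto_subseq
  exact hno ⟨_, x, (Infinite.natEmbedding G).injective.comp hψ.injective, hψx⟩

end Pool.Agent.Lib.MP_5ca319_gt
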