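import Pool.Agent.Lib.MP_5ca319_gt.Basic

/-!
Peter-Weyl: finite-dimensional unitary representations separate the points of a compact group.
-/

set_option autoImplicit false
set_option linter.all false

open Filter Topology MeasureTheory Module End DomMulAct
open scoped ComplexConjugate ENNReal

namespace Pool.Agent.Lib.MP_5ca319_gt

/-- A finite-dimensional unitary representation. -/
structure URep (K : Type) [Group K] [TopologicalSpace K] where
  E : Type
  [nacg : NormedAddCommGroup E]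
  [ips : InnerProductSpace ℂ E]
  [fd : FiniteDimensional ℂ E]
  ρ : K →* (E →L[ℂ] E)
  cont : Continuous ρ
  isom : ∀ x v, ‖ρ x v‖ = ‖v‖

attribute [instance] URep.nacg URep.ips URep.fd

namespace PW

variable {K : Type} [Group K] [TopologicalSpace K] [IsTopologicalGroup K] [CompactSpace K]
  [T2Space K] [MeasurableSpace K] [BorelSpace K]

instance : Fact ((2 : ℝ≥0∞) ≠ ∞) := ⟨by simp⟩

variable (μ : Measure K) [μ.IsHaarMeasure] [μ.Regular]

/-- translation operator on L² -/
noncomputable def U (g : K) : Lp ℂ 2 μ →L[ℂ] Lp ℂ 2 μ :=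
  LinearMap.mkContinuous
    { toFun := fun f => (mk g⁻¹ : Kᵈᵐᵃ) • f
      map_add' := fun f h => smul_add _ _ _
      map_smul' := fun c f => smul_comm _ _ _ } 1
    (by
      intro f
      simp only [LinearMap.coe_mk, AddHom.coe_mk, norm_smul_Lp, one_mul, le_refl])

theorem U_apply (g : K) (f : Lp ℂ 2 μ) : U μ g f = (mk g⁻¹ : Kᵈᵐᵃ) • f := rfl

theorem norm_U (g : K) (f : Lp ℂ 2 μ) : ‖U μ g f‖ = ‖f‖ := by
  rw [U_apply, norm_smul_Lp]

theorem U_one (f : Lp ℂ 2 μ) : U μ 1 f = f := by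
  rw [U_apply, inv_one, mk_one, one_smul]

theorem U_mul (g h : K) (f : Lp ℂ 2 μ) : U μ (g * h) f = U μ g (U μ h f) := by
  rw [U_apply, U_apply, U_apply, mul_inv_rev, ← mul_smul, ← mk_mul]

theorem continuous_U (f : Lp ℂ 2 μ) : Continuous fun g : K => U μ g f := by
  have h : Continuous fun g : K => ((mk g⁻¹ : Kᵈᵐᵃ), f) := by
    refine Continuous.prodMk ?_ continuous_const
    exact DomMulAct.continuous_mk.comp continuous_inv
  exact continuous_smul.comp h

/-- class of a continuous function -/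
noncomputable abbrev cls : (BoundedContinuousFunction K ℂ) →L[ℂ] Lp ℂ 2 μ :=
  BoundedContinuousFunction.toLp 2 μ ℂ

/-- translate of a bounded continuous function -/
noncomputable def tr (g : K) (h : BoundedContinuousFunction K ℂ) : BoundedContinuousFunction K ℂ :=
  h.compContinuous ⟨fun x => g⁻¹ * x, by fun_prop⟩

theorem tr_apply (g x : K) (h : BoundedContinuousFunction K ℂ) : tr g h x = h (g⁻¹ * x) := rfl

theorem U_cls (g : K) (h : BoundedContinuousFunction K ℂ) : U μ g (cls μ h) = cls μ (tr g h) := by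
  rw [U_apply]
  apply Lp.ext
  refine (smul_Lp_ae_eq _ _).trans ?_
  have h1 := BoundedContinuousFunction.coeFn_toLp 2 μ ℂ (tr g h)
  have h2 := BoundedContinuousFunction.coeFn_toLp 2 μ ℂ h
  have h3 := (measurePreserving_smul (g⁻¹ : K) μ).quasiMeasurePreserving.ae_eq_comp h2
  refine EventuallyEq.trans ?_ h1.symm
  filter_upwards [h3] with x hx
  simp only [Function.comp] at hx
  simp only [tr_apply]
  exact hx

/-- the kernel function y ↦ φ (x⁻¹ y) -/
noncomputable def ker (φ : C(K, ℝ)) : C(K, C(K, ℂ)) :=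
  ContinuousMap.curry ⟨fun p : K × K => ((φ (p.1⁻¹ * p.2) : ℝ) : ℂ), by fun_prop⟩

theorem ker_apply (φ : C(K, ℝ)) (x y : K) : ker φ x y = ((φ (x⁻¹ * y) : ℝ) : ℂ) := rfl

noncomputable def Ph (φ : C(K, ℝ)) (x : K) : Lp ℂ 2 μ :=
  cls μ (BoundedContinuousFunction.mkOfCompact (ker φ x))

theorem continuous_Ph (φ : C(K, ℝ)) : Continuous (Ph μ φ) := by
  have h1 : Continuous fun x => BoundedContinuousFunction.mkOfCompact (ker φ x) := by
    have := (ContinuousMap.linearIsometryBoundedOfCompact K ℂ ℂ).continuous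
    exact this.comp (ker φ).continuous
  exact (cls μ).continuous.comp h1

theorem U_Ph (φ : C(K, ℝ)) (g x : K) : U μ g (Ph μ φ x) = Ph μ φ (g * x) := by
  rw [Ph, U_cls, Ph]
  congr 1
  ext y
  simp [tr_apply, ker_apply, mul_assoc]

/-- the operator into continuous functions -/
noncomputable def S (φ : C(K, ℝ)) : Lp ℂ 2 μ →ₗ[ℂ] BoundedContinuousFunction K ℂ where
  toFun f := BoundedContinuousFunction.mkOfCompact
    ⟨fun x => inner ℂ (Ph μ φ x) f, (continuous_Ph μ φ).inner continuous_const⟩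
  map_add' f h := by ext x; simp [inner_add_right]
  map_smul' c f := by ext x; simp [inner_smul_right]

theorem S_apply (φ : C(K, ℝ)) (f : Lp ℂ 2 μ) (x : K) : S μ φ f x = inner ℂ (Ph μ φ x) f := rfl

theorem S_bound (φ : C(K, ℝ)) : ∃ M : ℝ, 0 ≤ M ∧ (∀ x, ‖Ph μ φ x‖ ≤ M) ∧
    ∀ f : Lp ℂ 2 μ, ‖S μ φ f‖ ≤ M * ‖f‖ := by
  obtain ⟨M, hM⟩ := (isCompact_range (continuous_Ph μ φ)).isBounded.exists_norm_le
  have hM' : ∀ x, ‖Ph μ φ x‖ ≤ M := fun x => hM _ ⟨x, rfl⟩
  have hM0 : 0 ≤ M := (norm_nonneg _).trans (hM' 1)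
  refine ⟨M, hM0, hM', fun f => ?_⟩
  rw [BoundedContinuousFunction.norm_le (by positivity)]
  intro x
  rw [S_apply]
  exact (norm_inner_le_norm _ _).trans (by gcongr; exact hM' x)

noncomputable def Sc (φ : C(K, ℝ)) : Lp ℂ 2 μ →L[ℂ] BoundedContinuousFunction K ℂ :=
  (S μ φ).mkContinuousOfExistsBound (by
    obtain ⟨M, _, _, h⟩ := S_bound μ φ
    exact ⟨M, h⟩)

theorem Sc_apply (φ : C(K, ℝ)) (f : Lp ℂ 2 μ) (x : K) : Sc μ φ f x = inner ℂ (Ph μ φ x) f := rfl

theorem Sc_compact (φ : C(K, ℝ)) : IsCompactOperator (Sc μ φ) := by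
  have hiff := isCompactOperator_iff_isCompact_closure_image_ball
    ((Sc μ φ) : Lp ℂ 2 μ →ₗ[ℂ] BoundedContinuousFunction K ℂ) one_pos
  refine hiff.2 ?_
  obtain ⟨M, hM0, hM, hb⟩ := S_bound μ φ
  apply BoundedContinuousFunction.arzela_ascoli (Metric.closedBall 0 M)
    (isCompact_closedBall 0 M)
  · rintro f x ⟨h, hh, rfl⟩
    rw [mem_closedBall_zero_iff, ContinuousLinearMap.coe_coe, Sc_apply]
    have h1 : ‖h‖ ≤ 1 := (mem_ball_zero_iff.1 hh).le
    calc ‖inner ℂ (Ph μ φ x) h‖ ≤ ‖Ph μ φ x‖ * ‖h‖ := norm_inner_le_norm _ _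
      _ ≤ M * 1 := by gcongr; exact hM x
      _ = M := mul_one M
  · intro x
    intro W hW
    obtain ⟨ε, hε, hεW⟩ := Metric.mem_uniformity_dist.1 hW
    have hc := (continuous_Ph μ φ).continuousAt (x := x)
    rw [ContinuousAt, Metric.tendsto_nhds] at hc
    filter_upwards [hc ε hε] with y hy
    rintro ⟨f, h, hh, rfl⟩
    have h1 : ‖h‖ ≤ 1 := (mem_ball_zero_iff.1 hh).le
    apply hεW
    simp only [ContinuousLinearMap.coe_coe, Sc_apply]
    rw [dist_comm, dist_eq_norm, ← inner_sub_left]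
    rw [dist_eq_norm] at hy
    calc ‖inner ℂ (Ph μ φ y - Ph μ φ x) h‖ ≤ ‖Ph μ φ y - Ph μ φ x‖ * ‖h‖ := norm_inner_le_norm _ _
      _ ≤ ‖Ph μ φ y - Ph μ φ x‖ * 1 := by gcongr
      _ < ε := by rw [mul_one]; exact hy

noncomputable def T (φ : C(K, ℝ)) : Lp ℂ 2 μ →L[ℂ] Lp ℂ 2 μ := (cls μ).comp (Sc μ φ)

theorem T_compact (φ : C(K, ℝ)) : IsCompactOperator (T μ φ) :=
  (Sc_compact μ φ).clm_comp (cls μ)

theorem T_U (φ : C(K, ℝ)) (g : K) (f : Lp ℂ 2 μ) : T μ φ (U μ g f) = U μ g (T μ φ f) := by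
  show cls μ (Sc μ φ (U μ g f)) = U μ g (cls μ (Sc μ φ f))
  rw [U_cls]
  congr 1
  ext x
  rw [Sc_apply, tr_apply, Sc_apply]
  have h1 : Ph μ φ x = U μ g (Ph μ φ (g⁻¹ * x)) := by rw [U_Ph]; simp
  rw [h1]
  -- U preserves inner products
  let V : Lp ℂ 2 μ →ₗᵢ[ℂ] Lp ℂ 2 μ := ⟨(U μ g).toLinearMap, norm_U μ g⟩
  exact V.inner_map_map _ _

theorem inner_cls (f h : BoundedContinuousFunction K ℂ) :
    inner ℂ (cls μ f) (cls μ h) = ∫ x, conj (f x) * h x ∂μ := by
  rw [MeasureTheory.L2.inner_def]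
  apply integral_congr_ae
  filter_upwards [BoundedContinuousFunction.coeFn_toLp 2 μ ℂ f,
    BoundedContinuousFunction.coeFn_toLp 2 μ ℂ h] with x h1 h2
  rw [h1, h2]
  simp [mul_comm]

theorem T_symm_cls (φ : C(K, ℝ)) (hφ : ∀ x, φ x⁻¹ = φ x) (f h : BoundedContinuousFunction K ℂ) :
    inner ℂ (T μ φ (cls μ f)) (cls μ h) = inner ℂ (cls μ f) (T μ φ (cls μ h)) := by
  show inner ℂ (cls μ (Sc μ φ (cls μ f))) (cls μ h) = inner ℂ (cls μ f) (cls μ (Sc μ φ (cls μ h)))
  rw [inner_cls, inner_cls]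
  simp only [Sc_apply, Ph]
  simp only [inner_cls, BoundedContinuousFunction.mkOfCompact_apply, ker_apply]
  have h1 : ∀ x, (starRingEnd ℂ) (∫ y, (starRingEnd ℂ) ((φ (x⁻¹ * y) : ℝ) : ℂ) * f y ∂μ) * h x
      = ∫ y, ((φ (x⁻¹ * y) : ℝ) : ℂ) * conj (f y) * h x ∂μ := by
    intro x
    rw [← integral_conj, ← integral_mul_const]
    simp
  have h2 : ∀ y, (starRingEnd ℂ) (f y) * ∫ x, (starRingEnd ℂ) ((φ (y⁻¹ * x) : ℝ) : ℂ) * h x ∂μ
      = ∫ x, ((φ (x⁻¹ * y) : ℝ) : ℂ) * conj (f y) * h x ∂μ := by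
    intro y
    rw [← integral_const_mul]
    congr 1
    ext x
    have : φ (x⁻¹ * y) = φ (y⁻¹ * x) := by rw [← hφ]; simp
    rw [this]
    simp only [Complex.conj_ofReal]
    ring
  simp only [h1, h2]
  apply integral_integral_swap_of_hasCompactSupport
  · have := f.continuous
    have := h.continuous
    have := φ.continuous
    simp only [Function.uncurry_def]
    fun_prop
  · exact HasCompactSupport.of_compactSpace _

theorem T_symm (φ : C(K, ℝ)) (hφ : ∀ x, φ x⁻¹ = φ x) : (T μ φ).IsSymmetric := by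
  have hd : DenseRange (cls μ) := by
    apply BoundedContinuousFunction.toLp_denseRange
    simp
  intro f h
  induction f using hd.induction_on with
  | hp => exact isClosed_eq (((T μ φ).continuous).inner continuous_const)
            (continuous_id.inner continuous_const)
  | ih f =>
    induction h using hd.induction_on with
    | hp => exact isClosed_eq (continuous_const.inner continuous_id)
              (continuous_const.inner ((T μ φ).continuous))
    | ih h => exact T_symm_cls μ φ hφ f h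

theorem mem_eig_U (φ : C(K, ℝ)) (l : ℂ) (g : K) (w : Lp ℂ 2 μ)
    (hw : w ∈ eigenspace (T μ φ : Module.End ℂ (Lp ℂ 2 μ)) l) :
    U μ g w ∈ eigenspace (T μ φ : Module.End ℂ (Lp ℂ 2 μ)) l := by
  rw [mem_eigenspace_iff] at hw ⊢
  show T μ φ (U μ g w) = _
  rw [T_U]
  have : T μ φ w = l • w := hw
  rw [this, map_smul]

/-- the unitary representation on an eigenspace -/
noncomputable def eigRep (φ : C(K, ℝ)) (l : ℂ) (hl : l ≠ 0) : URep K :=
  haveI := ContinuousLinearMap.finite_dimensional_eigenspace (T_compact μ φ) l hl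
  { E := eigenspace (T μ φ : Module.End ℂ (Lp ℂ 2 μ)) l
    ρ :=
      { toFun := fun g => (U μ g).restrict (mem_eig_U μ φ l g)
        map_one' := by
          ext w : 2
          show U μ 1 w = w
          exact U_one μ _
        map_mul' := by
          intro g h
          ext w : 2
          show U μ (g * h) w = U μ g (U μ h w)
          exact U_mul μ g h _ }
    cont := by
      rw [continuous_clm_apply]
      intro w
      apply Continuous.subtype_mk
      exact continuous_U μ w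
    isom := fun g w => norm_U μ g w }

theorem exists_bump (g : K) (hg : g ≠ 1) : ∃ φ : C(K, ℝ), (∀ x, φ x⁻¹ = φ x) ∧ (∀ x, 0 ≤ φ x) ∧
    φ 1 = 1 ∧ ∀ y, φ (g * y) * φ y = 0 := by
  have h1 : ({g}ᶜ : Set K) ∈ 𝓝 (1 : K) := isOpen_compl_singleton.mem_nhds (by simpa using hg.symm)
  obtain ⟨V, hV, hV2⟩ := exists_nhds_split_inv h1
  obtain ⟨ψ, hψ0, hψ1, hψ2⟩ := exists_continuous_zero_one_of_isClosed
    (s := (interior V)ᶜ) (t := {1}) isOpen_interior.isClosed_compl isClosed_singleton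
    (by
      rw [Set.disjoint_singleton_right]
      intro h
      exact h (mem_interior_iff_mem_nhds.2 hV))
  refine ⟨⟨fun x => ψ x * ψ x⁻¹, by fun_prop⟩, ?_, ?_, ?_, ?_⟩
  · intro x; simp [mul_comm]
  · intro x
    exact mul_nonneg (hψ2 x).1 (hψ2 _).1
  · have : ψ 1 = 1 := hψ1 (by simp)
    simp [this]
  · intro y
    by_contra hne
    simp only [ContinuousMap.coe_mk] at hne
    have h2 : ψ (g * y) ≠ 0 := by
      intro h; apply hne; rw [h]; ring
    have h3 : ψ y ≠ 0 := by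
      intro h; apply hne; rw [h]; ring
    have h4 : g * y ∈ V := by
      by_contra h
      exact h2 (hψ0 (fun h' => h (interior_subset h')))
    have h5 : y ∈ V := by
      by_contra h
      exact h3 (hψ0 (fun h' => h (interior_subset h')))
    have := hV2 _ h4 _ h5
    simp at this

end PW

open PW in
theorem exists_rep {K : Type} [Group K] [TopologicalSpace K] [IsTopologicalGroup K] [CompactSpace K]
    [T2Space K] (g : K) (hg : g ≠ 1) : ∃ r : URep K, r.ρ g ≠ 1 := by
  by_contra hcon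
  push Not at hcon
  letI : MeasurableSpace K := borel K
  haveI : BorelSpace K := ⟨rfl⟩
  let μ : Measure K := MeasureTheory.Measure.haar
  obtain ⟨φ, hφ1, hφ2, hφ3, hφ4⟩ := exists_bump g hg
  -- U g fixes the range of T
  have key : ∀ w : Lp ℂ 2 μ, U μ g (T μ φ w) = T μ φ w := by
    have hperp := ContinuousLinearMap.orthogonalComplement_iSup_eigenspaces_eq_bot (T_compact μ φ)
      (T_symm μ φ hφ1)
    let W : Submodule ℂ (Lp ℂ 2 μ) := LinearMap.ker ((U μ g).comp (T μ φ) - T μ φ).toLinearMap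
    have hWc : IsClosed (W : Set (Lp ℂ 2 μ)) := ContinuousLinearMap.isClosed_ker _
    have hle : (⨆ l, eigenspace (T μ φ : Module.End ℂ (Lp ℂ 2 μ)) l) ≤ W := by
      apply iSup_le
      intro l w hw
      have hw' : T μ φ w = l • w := mem_eigenspace_iff.1 hw
      show U μ g (T μ φ w) - T μ φ w = 0
      by_cases hl : l = 0
      · rw [hw', hl]; simp
      · have h1 := hcon (eigRep μ φ l hl)
        have h2 : (eigRep μ φ l hl).ρ g ⟨w, hw⟩ = ⟨w, hw⟩ := by
          rw [h1]; rfl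
        have h3 : U μ g w = w := congrArg Subtype.val h2
        rw [hw', map_smul, h3, sub_self]
    have htop : (⨆ l, eigenspace (T μ φ : Module.End ℂ (Lp ℂ 2 μ)) l).topologicalClosure = ⊤ := by
      rw [Submodule.topologicalClosure_eq_top_iff]
      exact hperp
    have : W = ⊤ := by
      rw [eq_top_iff, ← htop]
      exact Submodule.topologicalClosure_minimal _ hle hWc
    intro w
    have hw : w ∈ W := by rw [this]; trivial
    have hw' : U μ g (T μ φ w) - T μ φ w = 0 := hw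
    exact sub_eq_zero.1 hw'
  -- apply to φ itself
  let f : BoundedContinuousFunction K ℂ :=
    BoundedContinuousFunction.mkOfCompact ⟨fun x => ((φ x : ℝ) : ℂ), by fun_prop⟩
  have h1 := key (cls μ f)
  have h2 : cls μ (tr g (Sc μ φ (cls μ f))) = cls μ (Sc μ φ (cls μ f)) := by
    rw [← U_cls]
    exact h1
  have h3 := BoundedContinuousFunction.toLp_injective (p := 2) (𝕜 := ℂ) μ h2
  have h4 : Sc μ φ (cls μ f) (g⁻¹ * 1) = Sc μ φ (cls μ f) 1 := by
    have := congrArg (fun F : BoundedContinuousFunction K ℂ => F 1) h3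
    exact this
  rw [Sc_apply, Sc_apply] at h4
  simp only [Ph, inner_cls, BoundedContinuousFunction.mkOfCompact_apply, ker_apply] at h4
  have h5 : ∫ x, (starRingEnd ℂ) ((φ ((g⁻¹ * 1)⁻¹ * x) : ℝ) : ℂ) * f x ∂μ = 0 := by
    have : ∀ x, (starRingEnd ℂ) ((φ ((g⁻¹ * 1)⁻¹ * x) : ℝ) : ℂ) * f x = 0 := by
      intro x
      have h6 : (g⁻¹ * 1)⁻¹ * x = g * x := by group
      have h7 : f x = ((φ x : ℝ) : ℂ) := rfl
      rw [h6, h7, Complex.conj_ofReal, ← Complex.ofReal_mul, hφ4, Complex.ofReal_zero]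
    simp only [this, integral_zero]
  have h6 : ∫ x, (starRingEnd ℂ) ((φ ((1 : K)⁻¹ * x) : ℝ) : ℂ) * f x ∂μ
      = ((∫ x, φ x * φ x ∂μ : ℝ) : ℂ) := by
    rw [← integral_complex_ofReal]
    congr 1
    ext x
    have h7 : f x = ((φ x : ℝ) : ℂ) := rfl
    rw [h7, Complex.conj_ofReal, ← Complex.ofReal_mul, inv_one, one_mul]
  rw [h5, h6] at h4
  have h8 : (∫ x, φ x * φ x ∂μ) = 0 := by
    have := h4.symm
    exact_mod_cast this
  have h9 : 0 < ∫ x, φ x * φ x ∂μ := by
    apply Continuous.integral_pos_of_hasCompactSupport_nonneg_nonzero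
      (φ.continuous.mul φ.continuous)
      (HasCompactSupport.of_compactSpace _) (fun x => mul_nonneg (hφ2 x) (hφ2 x)) (x := 1)
    rw [Pi.mul_apply, hφ3]; norm_num
  linarith

end Pool.Agent.Lib.MP_5ca319_gt
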