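import Pool.Agent.Lib.MP_5ca319_gt.Lie
import Pool.Agent.Lib.MP_5ca319_gt.PeterWeyl

/-!
Iwasawa-type theorem: the residual of a compact group is contained in `N * C(N)` for every closed
normal subgroup `N`.
-/

set_option autoImplicit false
set_option linter.all false

open Filter Topology MeasureTheory NormedSpace

namespace Pool.Agent.Lib.MP_5ca319_gt

section openness

variable {A : Type*} [NormedRing A] [NormedAlgebra ℝ A] [FiniteDimensional ℝ A]
variable {K : Type*} [Group K] [TopologicalSpace K] [IsTopologicalGroup K] [CompactSpace K]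
  [T2Space K]
variable (ρ : K →* A)

/-- elements whose image centralizes the image of `N` -/
def Cr (N : Subgroup K) : Subgroup K where
  carrier := {x | ∀ n ∈ N, ρ x * ρ n = ρ n * ρ x}
  one_mem' := by intro n _; simp
  mul_mem' := by
    intro a b ha hb n hn
    rw [map_mul, mul_assoc, hb n hn, ← mul_assoc, ha n hn, mul_assoc]
  inv_mem' := by
    intro a ha n hn
    have h1 : ρ a⁻¹ * ρ a = 1 := by rw [← map_mul, inv_mul_cancel, map_one]
    have h2 : ρ a * ρ a⁻¹ = 1 := by rw [← map_mul, mul_inv_cancel, map_one]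
    calc ρ a⁻¹ * ρ n = ρ a⁻¹ * (ρ n * ρ a) * ρ a⁻¹ := by
          rw [mul_assoc, mul_assoc, h2, mul_one]
      _ = ρ n * ρ a⁻¹ := by rw [← ha n hn, ← mul_assoc, h1, one_mul]

theorem mem_Cr (N : Subgroup K) (x : K) : x ∈ Cr ρ N ↔ ∀ n ∈ N, ρ x * ρ n = ρ n * ρ x := Iff.rfl

theorem CN_Cr (hρ : Continuous ρ) {N : Subgroup K} (hN : CN N) : CN (Cr ρ N) := by
  refine ⟨⟨?_⟩, ?_⟩
  · intro x hx g n hn
    have h1 := hx (g⁻¹ * n * g) (by simpa using hN.normal.conj_mem n hn g⁻¹)
    rw [← map_mul, ← map_mul] at h1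
    have h2 : ρ (g * x * g⁻¹) * ρ n = ρ g * ρ (x * (g⁻¹ * n * g)) * ρ g⁻¹ := by
      rw [← map_mul, ← map_mul, ← map_mul]; congr 1; group
    have h3 : ρ n * ρ (g * x * g⁻¹) = ρ g * ρ ((g⁻¹ * n * g) * x) * ρ g⁻¹ := by
      rw [← map_mul, ← map_mul, ← map_mul]; congr 1; group
    rw [h2, h3, h1]
  · have : (Cr ρ N : Set K) = ⋂ n ∈ N, {x | ρ x * ρ n = ρ n * ρ x} := by
      ext x; simp [mem_Cr]
    rw [this]
    refine isClosed_biInter fun n _ => isClosed_eq ?_ ?_
    · exact hρ.mul continuous_const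
    · exact continuous_const.mul hρ

theorem exists_eps (hρ : Continuous ρ) {N : Subgroup K} (hN : CN N) :
    ∃ ε > 0, ∀ x, ‖ρ x - 1‖ < ε → x ∈ N ⊔ Cr ρ N := by
  haveI : CompleteSpace A := FiniteDimensional.complete ℝ A
  letI : NormedAlgebra ℚ A := NormedAlgebra.restrictScalars ℚ ℝ A
  haveI : ProperSpace A := FiniteDimensional.proper ℝ A
  by_contra hcon
  push Not at hcon
  set Q : Subgroup K := N ⊔ Cr ρ N with hQ
  have hQCN : CN Q := hN.sup (CN_Cr ρ hρ hN)
  have hQc : IsCompact (Q : Set K) := hQCN.closed.isCompact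
  -- choose minimizers
  have hstep : ∀ k : ℕ, ∃ y, y ∉ Q ∧ ‖ρ y - 1‖ < 1 / ((k : ℝ) + 1) ∧
      ∀ q ∈ Q, ‖ρ y - 1‖ ≤ ‖ρ (y * q) - 1‖ := by
    intro k
    obtain ⟨x, hx, hxQ⟩ := hcon (1 / ((k : ℝ) + 1)) Nat.one_div_pos_of_nat
    have hcont : Continuous fun q : K => ‖ρ (x * q) - 1‖ :=
      ((hρ.comp (continuous_const.mul continuous_id)).sub continuous_const).norm
    obtain ⟨q, hq, hmin⟩ := hQc.exists_isMinOn ⟨1, Q.one_mem⟩ hcont.continuousOn
    refine ⟨x * q, ?_, ?_, ?_⟩
    · intro h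
      apply hxQ
      have := Q.mul_mem h (Q.inv_mem hq)
      simpa using this
    · have h1 := hmin Q.one_mem
      simp only [Set.mem_setOf_eq, mul_one] at h1
      exact lt_of_le_of_lt h1 hx
    · intro q' hq'
      have h1 := hmin (Q.mul_mem hq hq')
      simp only [Set.mem_setOf_eq] at h1
      rwa [mul_assoc]
  choose y hyQ hy1 hymin using hstep
  set t : ℕ → ℝ := fun k => ‖ρ (y k) - 1‖ with ht
  have ht0 : ∀ k, 0 < t k := by
    intro k
    rw [ht]
    simp only
    rw [norm_pos_iff]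
    intro h0
    apply hyQ k
    have h1 : ρ (y k) = 1 := sub_eq_zero.1 h0
    have h2 : y k ∈ Cr ρ N := by
      intro n _
      rw [h1, one_mul, mul_one]
    exact (le_sup_right : Cr ρ N ≤ Q) h2
  have httend : Tendsto t atTop (𝓝 0) :=
    squeeze_zero (fun k => (ht0 k).le) (fun k => (hy1 k).le) tendsto_one_div_add_atTop_nhds_zero_nat
  -- unit vectors
  set v : ℕ → A := fun k => (t k)⁻¹ • (ρ (y k) - 1) with hv
  have hvnorm : ∀ k, ‖v k‖ = 1 := by
    intro k
    rw [hv]
    simp only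
    rw [norm_smul, norm_inv, Real.norm_of_nonneg (ht0 k).le]
    exact inv_mul_cancel₀ (ht0 k).ne'
  obtain ⟨X, _, φ, hφ, hX⟩ := (isCompact_closedBall (0 : A) 1).tendsto_subseq
    (fun k => by rw [mem_closedBall_zero_iff, hvnorm] : ∀ k, v k ∈ Metric.closedBall (0 : A) 1)
  have hXtop : X ∈ LieSet ρ (⊤ : Subgroup K) :=
    tangent ρ hρ (H := ⊤) (by simp) (fun k => y (φ k)) (fun _ => Subgroup.mem_top _)
      (fun k => t (φ k)) (fun k => ht0 _) (httend.comp hφ.tendsto_atTop) X hX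
  obtain ⟨X0, hX0N, hX0c⟩ := exists_average ρ hρ hN X hXtop
  have htopc : IsClosed ((⊤ : Subgroup K) : Set K) := by simp
  have hX0top : X0 ∈ LieSet ρ (⊤ : Subgroup K) := by
    have h1 : X - X0 ∈ LieSub ρ hρ ⊤ htopc := LieSet_mono ρ le_top hX0N
    have h2 : X ∈ LieSub ρ hρ ⊤ htopc := hXtop
    have h3 := (LieSub ρ hρ ⊤ htopc).sub_mem h2 h1
    have h4 : X - (X - X0) = X0 := by abel
    rw [h4] at h3
    exact h3
  have hX0C : X0 ∈ LieSet ρ (Cr ρ N) := by
    intro s
    obtain ⟨c, _, hc⟩ := hX0top s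
    refine ⟨c, ?_, hc⟩
    intro n hn
    rw [hc]
    have h1 : Commute (ρ n) (s • X0) := by
      have : Commute (ρ n) X0 := hX0c n hn
      exact this.smul_right s
    exact (h1.exp_right).symm
  have hXQ : X ∈ LieSet ρ Q := by
    have h1 : X - X0 ∈ LieSub ρ hρ Q hQCN.closed := LieSet_mono ρ le_sup_left hX0N
    have h2 : X0 ∈ LieSub ρ hρ Q hQCN.closed := LieSet_mono ρ le_sup_right hX0C
    have h3 := (LieSub ρ hρ Q hQCN.closed).add_mem h1 h2
    rw [sub_add_cancel] at h3
    exact h3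
  -- contradiction
  have hq : ∀ k, ∃ q ∈ Q, ρ q = exp ((-(t (φ k))) • X) := fun k => hXQ _
  choose q hqQ hqe using hq
  have hge : ∀ k, 1 ≤ ‖(t (φ k))⁻¹ • (ρ (y (φ k) * q k) - 1)‖ := by
    intro k
    have h1 := hymin (φ k) (q k) (hqQ k)
    rw [norm_smul, norm_inv, Real.norm_of_nonneg (ht0 _).le]
    have h2 := mul_le_mul_of_nonneg_left h1 (inv_nonneg.2 (ht0 (φ k)).le)
    have h3 : (t (φ k))⁻¹ * ‖ρ (y (φ k)) - 1‖ = 1 := inv_mul_cancel₀ (ht0 (φ k)).ne'
    rwa [h3] at h2
  have hslope := expo_slope (-X) (fun k => t (φ k)) (fun k => ht0 _) (httend.comp hφ.tendsto_atTop)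
  have hexp1 : Tendsto (fun k => exp ((-(t (φ k))) • X)) atTop (𝓝 1) := by
    have h1 : Tendsto (fun k => (-(t (φ k))) • X) atTop (𝓝 0) := by
      have := (httend.comp hφ.tendsto_atTop).neg.smul_const X
      simpa using this
    have h2 := (NormedSpace.exp_continuous (𝔸 := A)).tendsto 0
    rw [exp_zero] at h2
    exact h2.comp h1
  have hlim : Tendsto (fun k => (t (φ k))⁻¹ • (ρ (y (φ k) * q k) - 1)) atTop (𝓝 0) := by
    have h1 : ∀ k, (t (φ k))⁻¹ • (ρ (y (φ k) * q k) - 1)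
        = ((t (φ k))⁻¹ • (ρ (y (φ k)) - 1)) * exp ((-(t (φ k))) • X)
          + (t (φ k))⁻¹ • (exp ((t (φ k)) • (-X)) - 1) := by
      intro k
      rw [map_mul, hqe, smul_neg, neg_smul, smul_mul_assoc, ← smul_add]
      congr 1
      noncomm_ring
    simp only [h1]
    have h2 := (Tendsto.mul (hX : Tendsto (fun k => v (φ k)) atTop (𝓝 X)) hexp1).add hslope
    simpa [hv] using h2
  have h0 := hlim.norm
  rw [norm_zero] at h0
  have := ge_of_tendsto' h0 hge
  linarith

theorem isOpen_sup_Cr (hρ : Continuous ρ) {N : Subgroup K} (hN : CN N) :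
    IsOpen ((N ⊔ Cr ρ N : Subgroup K) : Set K) := by
  obtain ⟨ε, hε, h⟩ := exists_eps ρ hρ hN
  apply Subgroup.isOpen_of_mem_nhds (g := 1)
  have h1 : Tendsto (fun x => ‖ρ x - 1‖) (𝓝 1) (𝓝 0) := by
    have : Continuous fun x => ‖ρ x - 1‖ := (hρ.sub continuous_const).norm
    have h2 := this.tendsto 1
    simpa using h2
  filter_upwards [h1.eventually (gt_mem_nhds hε)] with x hx
  exact h x hx

theorem res_top_le_of_isOpen {U : Subgroup K} (hU : CN U) (ho : IsOpen (U : Set K)) :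
    res (⊤ : Subgroup K) ≤ U := by
  apply sInf_le
  refine ⟨hU, le_top, ?_⟩
  rw [Subgroup.relIndex_top_right]
  have : Finite (K ⧸ U) := Subgroup.quotient_finite_of_isOpen U ho
  exact Subgroup.index_ne_zero_of_finite

end openness

section reps

variable {K : Type} [Group K] [TopologicalSpace K]

/-- direct sum of unitary representations -/
noncomputable def URep.add (r s : URep K) : URep K where
  E := WithLp 2 (r.E × s.E)
  ρ :=
    { toFun := fun g =>
        ((WithLp.prodContinuousLinearEquiv 2 ℂ r.E s.E).symm : (r.E × s.E) →L[ℂ] _).comp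
          (((r.ρ g).prodMap (s.ρ g)).comp
            ((WithLp.prodContinuousLinearEquiv 2 ℂ r.E s.E) : _ →L[ℂ] (r.E × s.E)))
      map_one' := by
        ext v : 1
        simp
      map_mul' := by
        intro g h
        ext v : 1
        simp
        rfl }
  cont := by
    have h1 : Continuous fun g : K => (r.ρ g).prodMap (s.ρ g) := by
      have := (ContinuousLinearMap.prodMapL ℂ r.E r.E s.E s.E).continuous.comp
        (r.cont.prodMk s.cont)
      exact this
    exact continuous_const.clm_comp (h1.clm_comp continuous_const)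
  isom := by
    intro g v
    have h1 := WithLp.prod_norm_sq_eq_of_L2 v
    rw [← sq_eq_sq₀ (norm_nonneg _) (norm_nonneg _), h1, WithLp.prod_norm_sq_eq_of_L2]
    congr 1
    · congr 1
      exact r.isom g _
    · congr 1
      exact s.isom g _

theorem URep.add_eq_iff (r s : URep K) (g h : K) :
    (r.add s).ρ g = (r.add s).ρ h ↔ r.ρ g = r.ρ h ∧ s.ρ g = s.ρ h := by
  constructor
  · intro H
    constructor
    · ext v
      have := congrArg (fun F => (F ((WithLp.prodContinuousLinearEquiv 2 ℂ r.E s.E).symm (v, 0))).fst) H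
      exact this
    · ext v
      have := congrArg (fun F => (F ((WithLp.prodContinuousLinearEquiv 2 ℂ r.E s.E).symm (0, v))).snd) H
      exact this
  · rintro ⟨h1, h2⟩
    show ((WithLp.prodContinuousLinearEquiv 2 ℂ r.E s.E).symm :
          (r.E × s.E) →L[ℂ] WithLp 2 (r.E × s.E)).comp
          (((r.ρ g).prodMap (s.ρ g)).comp
            ((WithLp.prodContinuousLinearEquiv 2 ℂ r.E s.E) :
              WithLp 2 (r.E × s.E) →L[ℂ] (r.E × s.E))) = _
    rw [h1, h2]
    rfl

theorem ker_add (r s : URep K) : (r.add s).ρ.ker = r.ρ.ker ⊓ s.ρ.ker := by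
  ext g
  have := r.add_eq_iff s g 1
  simp only [map_one] at this
  simpa [MonoidHom.mem_ker, Subgroup.mem_inf] using this

/-- kernels of unitary representations -/
def RK (N : Subgroup K) : Prop := ∃ r : URep K, r.ρ.ker = N

theorem RK.inf {M N : Subgroup K} (hM : RK M) (hN : RK N) : RK (M ⊓ N) := by
  obtain ⟨r, rfl⟩ := hM
  obtain ⟨s, rfl⟩ := hN
  exact ⟨r.add s, ker_add r s⟩

theorem RK.CN {N : Subgroup K} (hN : RK N) : CN N := by
  obtain ⟨r, rfl⟩ := hN
  refine ⟨inferInstance, ?_⟩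
  have : ((r.ρ.ker : Subgroup K) : Set K) = r.ρ ⁻¹' {1} := by
    ext x; simp [MonoidHom.mem_ker]
  rw [this]
  exact isClosed_singleton.preimage r.cont

variable [IsTopologicalGroup K] [CompactSpace K] [T2Space K]

theorem RK.sep (x : K) (hx : x ≠ 1) : ∃ N : Subgroup K, RK N ∧ x ∉ N := by
  obtain ⟨r, hr⟩ := exists_rep x hx
  exact ⟨r.ρ.ker, ⟨r, rfl⟩, by rwa [MonoidHom.mem_ker]⟩

/-- the centralizer of a subgroup -/
theorem iwasawa {N : Subgroup K} (hN : CN N) {x : K} (hx : x ∈ res (⊤ : Subgroup K)) :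
    ∃ y ∈ N, ∀ n ∈ N, (y⁻¹ * x) * n = n * (y⁻¹ * x) := by
  -- the compact sets
  set F : URep K → Set K := fun r => {y | y ∈ N ∧ y⁻¹ * x ∈ Cr r.ρ N} with hF
  have hFclosed : ∀ r, IsClosed (F r) := by
    intro r
    have h1 := hN.closed
    have h2 : IsClosed {y : K | y⁻¹ * x ∈ Cr r.ρ N} :=
      (CN_Cr r.ρ r.cont hN).closed.preimage (by fun_prop : Continuous fun y : K => y⁻¹ * x)
    exact h1.inter h2
  have hFne : ∀ r, (F r).Nonempty := by
    intro r
    have h1 := (CN_Cr r.ρ r.cont hN)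
    have h2 := res_top_le_of_isOpen (hN.sup h1) (isOpen_sup_Cr r.ρ r.cont hN) hx
    have := h1.normal
    rw [Subgroup.mem_sup_of_normal_right] at h2
    obtain ⟨y, hy, z, hz, rfl⟩ := h2
    exact ⟨y, hy, by simpa using hz⟩
  have hdir : Directed (· ⊇ ·) F := by
    intro r s
    refine ⟨r.add s, ?_, ?_⟩
    · rintro y ⟨hy, hyc⟩
      refine ⟨hy, fun n hn => ?_⟩
      have := hyc n hn
      rw [← map_mul, ← map_mul, URep.add_eq_iff] at this
      rw [← map_mul, ← map_mul]
      exact this.1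
    · rintro y ⟨hy, hyc⟩
      refine ⟨hy, fun n hn => ?_⟩
      have := hyc n hn
      rw [← map_mul, ← map_mul, URep.add_eq_iff] at this
      rw [← map_mul, ← map_mul]
      exact this.2
  haveI : Nonempty (URep K) := by
    refine ⟨{ E := ℂ, ρ := 1, cont := continuous_const, isom := fun x v => rfl }⟩
  obtain ⟨y, hy⟩ := IsCompact.nonempty_iInter_of_directed_nonempty_isCompact_isClosed F hdir
    hFne (fun r => (hFclosed r).isCompact) hFclosed
  rw [Set.mem_iInter] at hy
  refine ⟨y, (hy (Classical.arbitrary _)).1, fun n hn => ?_⟩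
  by_contra hne
  have h1 : (y⁻¹ * x * n) * (n * (y⁻¹ * x))⁻¹ ≠ 1 := by
    intro h
    exact hne (mul_inv_eq_one.1 h)
  obtain ⟨r, hr⟩ := exists_rep _ h1
  apply hr
  have h2 := (hy r).2 n hn
  rw [← map_mul, ← map_mul] at h2
  rw [map_mul, h2, ← map_mul, mul_inv_cancel, map_one]

end reps

end Pool.Agent.Lib.MP_5ca319_gt
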