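import Pool.Agent.Lib.MP_5ca319_gt.Basic

/-!
One-parameter subgroups of the image of a compact group in a finite-dimensional algebra, and
the fact that `N * (centralizer of N)` is open modulo the kernel.
-/

set_option autoImplicit false
set_option linter.all false

open Filter Topology MeasureTheory NormedSpace

namespace Pool.Agent.Lib.MP_5ca319_gt

variable {A : Type*} [NormedRing A] [NormedAlgebra ℝ A]

theorem norm_pow_sub_pow_mul_le (a b : A) (M M' : ℝ) (hM0 : 0 ≤ M) (N : ℕ)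
    (ha : ∀ j, ‖a ^ j‖ ≤ M) (hb : ∀ j ≤ N, ‖b ^ j‖ ≤ M') :
    ∀ n m : ℕ, n + m ≤ N → ‖(a ^ n - b ^ n) * b ^ m‖ ≤ n * (M * ‖a - b‖ * M') := by
  intro n
  induction n with
  | zero => intro m hm; simp
  | succ n ih =>
    intro m hm
    have h1 : (a ^ (n + 1) - b ^ (n + 1)) * b ^ m
        = a ^ n * (a - b) * b ^ m + (a ^ n - b ^ n) * b ^ (m + 1) := by
      rw [pow_succ a, pow_succ b, pow_succ' b m]
      noncomm_ring
    rw [h1]
    have h2 : ‖a ^ n * (a - b) * b ^ m‖ ≤ M * ‖a - b‖ * M' := by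
      refine (norm_mul_le _ _).trans ?_
      have h3 : ‖a ^ n * (a - b)‖ ≤ M * ‖a - b‖ :=
        (norm_mul_le _ _).trans (by gcongr; exact ha n)
      have h4 := hb m (by omega)
      gcongr
    have h5 := ih (m + 1) (by omega)
    refine (norm_add_le _ _).trans ?_
    push_cast
    linarith

variable [FiniteDimensional ℝ A]
variable {K : Type*} [Group K] [TopologicalSpace K] [IsTopologicalGroup K] [CompactSpace K]
  [T2Space K]
variable (ρ : K →* A)

/-- one-parameter directions of a subgroup -/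
def LieSet (H : Subgroup K) : Set A := {Y | ∀ s : ℝ, ∃ h ∈ H, ρ h = exp (s • Y)}

theorem exists_bound (hρ : Continuous ρ) : ∃ M : ℝ, 0 ≤ M ∧ ∀ x, ‖ρ x‖ ≤ M := by
  obtain ⟨M, hM⟩ := (isCompact_range hρ).isBounded.exists_norm_le
  exact ⟨M, (norm_nonneg _).trans (hM _ ⟨1, rfl⟩), fun x => hM _ ⟨x, rfl⟩⟩

theorem expo_slope (Y : A) (t : ℕ → ℝ) (ht0 : ∀ k, 0 < t k) (ht : Tendsto t atTop (𝓝 0)) :
    Tendsto (fun k => (t k)⁻¹ • (exp (t k • Y) - 1)) atTop (𝓝 Y) := by
  haveI : CompleteSpace A := FiniteDimensional.complete ℝ A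
  letI : NormedAlgebra ℚ A := NormedAlgebra.restrictScalars ℚ ℝ A
  have h1 := (hasDerivAt_exp_smul_const Y (0 : ℝ)).tendsto_slope_zero
  simp only [zero_smul, exp_zero, one_mul, zero_add] at h1
  have h2 : Tendsto t atTop (𝓝[≠] 0) := by
    rw [tendsto_nhdsWithin_iff]
    exact ⟨ht, Eventually.of_forall fun k => (ht0 k).ne'⟩
  exact h1.comp h2

theorem tangent_nonneg (hρ : Continuous ρ) {H : Subgroup K} (hH : IsClosed (H : Set K))
    (h : ℕ → K) (hh : ∀ k, h k ∈ H) (t : ℕ → ℝ) (ht0 : ∀ k, 0 < t k) (ht : Tendsto t atTop (𝓝 0))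
    (Y : A) (hY : Tendsto (fun k => (t k)⁻¹ • (ρ (h k) - 1)) atTop (𝓝 Y)) (s : ℝ) (hs : 0 ≤ s) :
    ∃ x ∈ H, ρ x = exp (s • Y) := by
  haveI : CompleteSpace A := FiniteDimensional.complete ℝ A
  letI : NormedAlgebra ℚ A := NormedAlgebra.restrictScalars ℚ ℝ A
  obtain ⟨M, hM0, hM⟩ := exists_bound ρ hρ
  -- bound for exp on [0,s]
  have hcont : Continuous fun r : ℝ => exp (r • Y) :=
    NormedSpace.exp_continuous.comp (continuous_id.smul continuous_const)
  obtain ⟨M', hM'⟩ := ((isCompact_Icc (a := (0:ℝ)) (b := s)).image hcont).isBounded.exists_norm_le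
  have hM'0 : 0 ≤ M' := (norm_nonneg _).trans (hM' _ ⟨0, ⟨le_rfl, hs⟩, rfl⟩)
  set n : ℕ → ℕ := fun k => ⌊s / t k⌋₊ with hn
  have hn1 : ∀ k, (n k : ℝ) * t k ≤ s := by
    intro k
    have h1 := Nat.floor_le (div_nonneg hs (ht0 k).le)
    have h2 := mul_le_mul_of_nonneg_right h1 (ht0 k).le
    rwa [div_mul_cancel₀ _ (ht0 k).ne'] at h2
  have hn2 : ∀ k, s - t k ≤ (n k : ℝ) * t k := by
    intro k
    have h1 := Nat.lt_floor_add_one (s / t k)
    have h2 := mul_lt_mul_of_pos_right h1 (ht0 k)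
    rw [div_mul_cancel₀ _ (ht0 k).ne'] at h2
    have : ((⌊s / t k⌋₊ : ℝ) + 1) * t k = (n k : ℝ) * t k + t k := by rw [hn]; ring
    linarith
  have hnt : Tendsto (fun k => (n k : ℝ) * t k) atTop (𝓝 s) := by
    refine tendsto_of_tendsto_of_tendsto_of_le_of_le (g := fun k => s - t k) ?_ tendsto_const_nhds
      hn2 hn1
    have := (tendsto_const_nhds (x := s)).sub ht
    simpa using this
  have hexp : Tendsto (fun k => exp (((n k : ℝ) * t k) • Y)) atTop (𝓝 (exp (s • Y))) :=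
    (hcont.tendsto s).comp hnt
  have hpow : ∀ k, exp (((n k : ℝ) * t k) • Y) = (exp (t k • Y)) ^ (n k) := by
    intro k
    rw [← exp_nsmul, mul_smul, Nat.cast_smul_eq_nsmul]
  have hpowj : ∀ k, ∀ j ≤ n k, ‖(exp (t k • Y)) ^ j‖ ≤ M' := by
    intro k j hj
    rw [← exp_nsmul, ← Nat.cast_smul_eq_nsmul ℝ, smul_smul]
    apply hM'
    refine ⟨(j : ℝ) * t k, ⟨by have := ht0 k; positivity, ?_⟩, rfl⟩
    have : (j : ℝ) ≤ n k := by exact_mod_cast hj
    exact (mul_le_mul_of_nonneg_right this (ht0 k).le).trans (hn1 k)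
  have hdiff : Tendsto (fun k => ρ (h k) ^ (n k) - (exp (t k • Y)) ^ (n k)) atTop (𝓝 0) := by
    have hb : ∀ k, ‖ρ (h k) ^ (n k) - (exp (t k • Y)) ^ (n k)‖
        ≤ s * M * M' * ‖(t k)⁻¹ • (ρ (h k) - 1) - (t k)⁻¹ • (exp (t k • Y) - 1)‖ := by
      intro k
      have h1 := norm_pow_sub_pow_mul_le (ρ (h k)) (exp (t k • Y)) M M' hM0 (n k)
        (fun j => by rw [← map_pow]; exact hM _) (hpowj k) (n k) 0 (by simp)
      rw [pow_zero, mul_one] at h1
      refine h1.trans ?_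
      have h2 : (t k)⁻¹ • (ρ (h k) - 1) - (t k)⁻¹ • (exp (t k • Y) - 1)
          = (t k)⁻¹ • (ρ (h k) - exp (t k • Y)) := by
        rw [← smul_sub]; congr 1; abel
      rw [h2, norm_smul, norm_inv, Real.norm_of_nonneg (ht0 k).le]
      have h3 : (n k : ℝ) ≤ s * (t k)⁻¹ := by
        rw [← div_eq_mul_inv]
        exact Nat.floor_le (div_nonneg hs (ht0 k).le)
      calc (n k : ℝ) * (M * ‖ρ (h k) - exp (t k • Y)‖ * M')
          ≤ (s * (t k)⁻¹) * (M * ‖ρ (h k) - exp (t k • Y)‖ * M') := by gcongr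
        _ = s * M * M' * ((t k)⁻¹ * ‖ρ (h k) - exp (t k • Y)‖) := by ring
    have h4 := (hY.sub (expo_slope Y t ht0 ht)).norm.const_mul (s * M * M')
    rw [sub_self, norm_zero, mul_zero] at h4
    rw [tendsto_zero_iff_norm_tendsto_zero]
    exact squeeze_zero (fun k => norm_nonneg _) hb h4
  have hlim : Tendsto (fun k => ρ (h k ^ (n k))) atTop (𝓝 (exp (s • Y))) := by
    have h5 := hdiff.add hexp
    rw [zero_add] at h5
    refine h5.congr fun k => ?_
    rw [hpow, map_pow]; abel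
  have hcl : IsClosed (ρ '' (H : Set K)) := (hH.isCompact.image hρ).isClosed
  have hmem := hcl.mem_of_tendsto hlim
    (Eventually.of_forall fun k => ⟨h k ^ n k, H.pow_mem (hh k) _, rfl⟩)
  obtain ⟨x, hx, hxe⟩ := hmem
  exact ⟨x, hx, hxe⟩

theorem tangent (hρ : Continuous ρ) {H : Subgroup K} (hH : IsClosed (H : Set K))
    (h : ℕ → K) (hh : ∀ k, h k ∈ H) (t : ℕ → ℝ) (ht0 : ∀ k, 0 < t k) (ht : Tendsto t atTop (𝓝 0))
    (Y : A) (hY : Tendsto (fun k => (t k)⁻¹ • (ρ (h k) - 1)) atTop (𝓝 Y)) :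
    Y ∈ LieSet ρ H := by
  haveI : CompleteSpace A := FiniteDimensional.complete ℝ A
  letI : NormedAlgebra ℚ A := NormedAlgebra.restrictScalars ℚ ℝ A
  intro s
  rcases le_total 0 s with hs | hs
  · exact tangent_nonneg ρ hρ hH h hh t ht0 ht Y hY s hs
  · obtain ⟨x, hx, hxe⟩ := tangent_nonneg ρ hρ hH h hh t ht0 ht Y hY (-s) (by linarith)
    refine ⟨x⁻¹, H.inv_mem hx, ?_⟩
    have h1 : ρ x * exp (s • Y) = 1 := by
      rw [hxe, ← exp_add_of_commute]
      · rw [neg_smul, neg_add_cancel, exp_zero]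
      · exact ((Commute.refl Y).smul_left _).smul_right _
    calc ρ x⁻¹ = ρ x⁻¹ * (ρ x * exp (s • Y)) := by rw [h1, mul_one]
      _ = exp (s • Y) := by rw [← mul_assoc, ← map_mul, inv_mul_cancel, map_one, one_mul]

theorem LieSet_of_deriv (hρ : Continuous ρ) {H : Subgroup K} (hH : IsClosed (H : Set K))
    (f : ℝ → A) (Y : A) (hf : HasDerivAt f Y 0) (h0 : f 0 = 1) (hfH : ∀ s, ∃ h ∈ H, ρ h = f s) :
    Y ∈ LieSet ρ H := by
  choose g hg hgf using hfH
  have ht0 : ∀ k : ℕ, (0 : ℝ) < 1 / ((k : ℝ) + 1) := fun k => Nat.one_div_pos_of_nat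
  have ht : Tendsto (fun k : ℕ => 1 / ((k : ℝ) + 1)) atTop (𝓝 0) :=
    tendsto_one_div_add_atTop_nhds_zero_nat
  apply tangent ρ hρ hH (fun k : ℕ => g (1 / ((k : ℝ) + 1))) (fun k => hg _) _ ht0 ht
  have h1 := hf.tendsto_slope_zero
  have h2 : Tendsto (fun k : ℕ => 1 / ((k : ℝ) + 1)) atTop (𝓝[≠] 0) := by
    rw [tendsto_nhdsWithin_iff]
    exact ⟨ht, Eventually.of_forall fun k => (ht0 k).ne'⟩
  refine (h1.comp h2).congr fun k => ?_
  simp only [Function.comp, zero_add, h0, hgf]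

/-- The Lie algebra of (the image of) a closed subgroup. -/
def LieSub (hρ : Continuous ρ) (H : Subgroup K) (hH : IsClosed (H : Set K)) : Submodule ℝ A where
  carrier := LieSet ρ H
  zero_mem' := fun s => ⟨1, H.one_mem, by simp⟩
  add_mem' := by
    haveI : CompleteSpace A := FiniteDimensional.complete ℝ A
    letI : NormedAlgebra ℚ A := NormedAlgebra.restrictScalars ℚ ℝ A
    intro Y Z hY hZ
    have h1 := (hasDerivAt_exp_smul_const Y (0 : ℝ)).mul (hasDerivAt_exp_smul_const Z (0 : ℝ))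
    simp only [zero_smul, exp_zero, one_mul, mul_one] at h1
    refine LieSet_of_deriv ρ hρ hH _ _ h1 (by simp) ?_
    intro s
    obtain ⟨a, ha, hae⟩ := hY s
    obtain ⟨b, hb, hbe⟩ := hZ s
    exact ⟨a * b, H.mul_mem ha hb, by rw [map_mul, hae, hbe]; rfl⟩
  smul_mem' := by
    intro c Y hY s
    obtain ⟨a, ha, hae⟩ := hY (s * c)
    exact ⟨a, ha, by rw [hae, smul_smul]⟩

theorem mem_LieSub (hρ : Continuous ρ) (H : Subgroup K) (hH : IsClosed (H : Set K)) (Y : A) :
    Y ∈ LieSub ρ hρ H hH ↔ Y ∈ LieSet ρ H := Iff.rfl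

theorem LieSet_mono {H H' : Subgroup K} (h : H ≤ H') : LieSet ρ H ⊆ LieSet ρ H' := by
  intro Y hY s
  obtain ⟨x, hx, hxe⟩ := hY s
  exact ⟨x, h hx, hxe⟩

/-- averaging over a closed normal subgroup -/
theorem exists_average (hρ : Continuous ρ) {N : Subgroup K} (hN : CN N) (X : A)
    (hX : X ∈ LieSet ρ (⊤ : Subgroup K)) :
    ∃ X0 : A, X - X0 ∈ LieSet ρ N ∧ ∀ n ∈ N, ρ n * X0 = X0 * ρ n := by
  haveI : CompleteSpace A := FiniteDimensional.complete ℝ A
  letI : NormedAlgebra ℚ A := NormedAlgebra.restrictScalars ℚ ℝ A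
  haveI : CompactSpace N := isCompact_iff_compactSpace.1 hN.closed.isCompact
  letI : MeasurableSpace N := borel N
  haveI : BorelSpace N := ⟨rfl⟩
  let K0 : TopologicalSpace.PositiveCompacts N := ⊤
  let μ : Measure N := Measure.haarMeasure K0
  haveI : IsProbabilityMeasure μ := ⟨by
    have h := Measure.haarMeasure_self (K₀ := K0)
    exact h⟩
  have hinv : ∀ y : K, ρ y⁻¹ * ρ y = 1 := fun y => by rw [← map_mul, inv_mul_cancel, map_one]
  have hinv' : ∀ y : K, ρ y * ρ y⁻¹ = 1 := fun y => by rw [← map_mul, mul_inv_cancel, map_one]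
  have hF : Continuous fun y : N => ρ (y : K) * X * ρ (y : K)⁻¹ := by
    have h1 : Continuous fun y : N => ρ (y : K) := hρ.comp continuous_subtype_val
    have h2 : Continuous fun y : N => ρ (y : K)⁻¹ := hρ.comp (continuous_subtype_val.inv)
    exact (h1.mul continuous_const).mul h2
  have hFint : Integrable (fun y : N => ρ (y : K) * X * ρ (y : K)⁻¹) μ :=
    hF.integrable_of_hasCompactSupport (HasCompactSupport.of_compactSpace _)
  refine ⟨∫ y : N, ρ (y : K) * X * ρ (y : K)⁻¹ ∂μ, ?_, ?_⟩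
  · have h1 : X - ∫ y : N, ρ (y : K) * X * ρ (y : K)⁻¹ ∂μ
        = ∫ y : N, (X - ρ (y : K) * X * ρ (y : K)⁻¹) ∂μ := by
      rw [integral_sub (integrable_const _) hFint]
      simp
    rw [h1]
    have hconv : Convex ℝ (LieSub ρ hρ N hN.closed : Set A) := Submodule.convex _
    have hclosed : IsClosed (LieSub ρ hρ N hN.closed : Set A) :=
      Submodule.closed_of_finiteDimensional _
    apply hconv.integral_mem hclosed
    · refine Eventually.of_forall fun y => ?_
      have h2 : HasDerivAt (fun s : ℝ => exp (s • X) * ρ (y : K) * exp (s • (-X)) * ρ (y : K)⁻¹)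
          (X - ρ (y : K) * X * ρ (y : K)⁻¹) 0 := by
        have h3 := (((hasDerivAt_exp_smul_const X (0 : ℝ)).mul_const (ρ (y : K))).mul
          (hasDerivAt_exp_smul_const (-X) (0 : ℝ))).mul_const (ρ (y : K)⁻¹)
        simp only [zero_smul, exp_zero, one_mul, mul_one] at h3
        have h5 : (X * ρ (y : K) + ρ (y : K) * -X) * ρ (y : K)⁻¹
            = X - ρ (y : K) * X * ρ (y : K)⁻¹ := by
          rw [add_mul, mul_assoc X, hinv', mul_one]
          noncomm_ring
        rw [h5] at h3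
        exact h3
      refine LieSet_of_deriv ρ hρ hN.closed _ _ h2 ?_ ?_
      · simp [hinv']
      · intro s
        obtain ⟨x, _, hx⟩ := hX s
        refine ⟨x * y * x⁻¹ * (y : K)⁻¹, N.mul_mem (hN.normal.conj_mem _ y.2 x)
          (N.inv_mem y.2), ?_⟩
        have h4 : ρ x⁻¹ = exp (s • (-X)) := by
          have h5 : ρ x * exp (s • (-X)) = 1 := by
            rw [hx, ← exp_add_of_commute]
            · rw [smul_neg, add_neg_cancel, exp_zero]
            · exact ((Commute.refl X).neg_right.smul_left _).smul_right _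
          calc ρ x⁻¹ = ρ x⁻¹ * (ρ x * exp (s • (-X))) := by rw [h5, mul_one]
            _ = exp (s • (-X)) := by rw [← mul_assoc, hinv, one_mul]
        rw [map_mul, map_mul, map_mul, hx, h4]
    · exact (integrable_const _).sub hFint
  · intro n hn
    have h1 : ρ n * (∫ y : N, ρ (y : K) * X * ρ (y : K)⁻¹ ∂μ)
        = ∫ y : N, ρ n * (ρ (y : K) * X * ρ (y : K)⁻¹) ∂μ := by
      exact ((ContinuousLinearMap.mul ℝ A (ρ n)).integral_comp_comm hFint).symm
    have h2 : (∫ y : N, ρ (y : K) * X * ρ (y : K)⁻¹ ∂μ) * ρ n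
        = ∫ y : N, (ρ (y : K) * X * ρ (y : K)⁻¹) * ρ n ∂μ := by
      exact (((ContinuousLinearMap.mul ℝ A).flip (ρ n)).integral_comp_comm hFint).symm
    rw [h1, h2]
    have h3 := integral_mul_left_eq_self (μ := μ)
      (fun y : N => (ρ (y : K) * X * ρ (y : K)⁻¹) * ρ n) ⟨n, hn⟩
    rw [← h3]
    congr 1
    ext y
    simp only [Subgroup.coe_mul, map_mul, mul_inv_rev]
    simp only [mul_assoc, hinv, mul_one]

end Pool.Agent.Lib.MP_5ca319_gt
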